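import Pool.Agent.H92.KST.Targets

/-!
# API for board kst_modules
-/

set_option autoImplicit false
set_option linter.dupNamespace false
set_option linter.unusedSectionVars false

universe u

namespace Pool.Agent.H92.KST

section InL
variable {R F : Type u} [CommRing R] [IsDomain R] [Field F] [Algebra R F]
variable {T T' : Set (Ideal R)} {f g : F}

theorem inL_alg (hT : ∀ q ∈ T, q.IsPrime) (r : R) : InL T (algebraMap R F r) :=
  ⟨1, r, one_ne_zero, fun q hq h => (hT q hq).ne_top ((Ideal.eq_top_iff_one q).2 h), by simp⟩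

theorem inL_zero (hT : ∀ q ∈ T, q.IsPrime) : InL T (0 : F) := by
  simpa using inL_alg (F := F) hT 0

theorem inL_one (hT : ∀ q ∈ T, q.IsPrime) : InL T (1 : F) := by
  simpa using inL_alg (F := F) hT 1

theorem InL.add (hT : ∀ q ∈ T, q.IsPrime) (h : InL T f) (h' : InL T g) : InL T (f + g) := by
  obtain ⟨s, r, hs, hq, e⟩ := h
  obtain ⟨s', r', hs', hq', e'⟩ := h'
  refine ⟨s * s', r * s' + r' * s, mul_ne_zero hs hs', fun q hqT hm => ?_, ?_⟩
  · rcases (hT q hqT).mem_or_mem hm with h1 | h1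
    · exact hq q hqT h1
    · exact hq' q hqT h1
  · simp only [map_mul, map_add, ← e, ← e']
    ring

theorem InL.mul (hT : ∀ q ∈ T, q.IsPrime) (h : InL T f) (h' : InL T g) : InL T (f * g) := by
  obtain ⟨s, r, hs, hq, e⟩ := h
  obtain ⟨s', r', hs', hq', e'⟩ := h'
  refine ⟨s * s', r * r', mul_ne_zero hs hs', fun q hqT hm => ?_, ?_⟩
  · rcases (hT q hqT).mem_or_mem hm with h1 | h1
    · exact hq q hqT h1
    · exact hq' q hqT h1
  · simp only [map_mul, ← e, ← e']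
    ring

theorem InL.neg (h : InL T f) : InL T (-f) := by
  obtain ⟨s, r, hs, hq, e⟩ := h
  exact ⟨s, -r, hs, hq, by rw [mul_neg, e, map_neg]⟩

theorem InL.sub (hT : ∀ q ∈ T, q.IsPrime) (h : InL T f) (h' : InL T g) : InL T (f - g) := by
  rw [sub_eq_add_neg]
  exact h.add hT h'.neg

theorem InL.pow (hT : ∀ q ∈ T, q.IsPrime) (h : InL T f) (k : ℕ) : InL T (f ^ k) := by
  induction k with
  | zero => simpa using inL_one (F := F) hT
  | succ k ih => rw [pow_succ]; exact ih.mul hT h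

theorem InL.sum (hT : ∀ q ∈ T, q.IsPrime) {ι : Type*} (s : Finset ι) {f : ι → F}
    (h : ∀ i ∈ s, InL T (f i)) : InL T (∑ i ∈ s, f i) := by
  classical
  induction s using Finset.induction_on with
  | empty => simpa using inL_zero (F := F) hT
  | insert a s ha ih =>
    rw [Finset.sum_insert ha]
    exact (h a (Finset.mem_insert_self a s)).add hT
      (ih fun i hi => h i (Finset.mem_insert_of_mem hi))

theorem InL.mono (h : ∀ q' ∈ T', Below T q') (hf : InL T f) : InL T' f := by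
  obtain ⟨s, r, hs, hq, e⟩ := hf
  refine ⟨s, r, hs, fun q' hq' hm => ?_, e⟩
  obtain ⟨q, hqT, hle⟩ := h q' hq'
  exact hq q hqT (hle hm)

theorem InL.mono_subset (h : T' ⊆ T) (hf : InL T f) : InL T' f :=
  hf.mono fun q hq => ⟨q, h hq, le_rfl⟩

theorem InL.single (hf : InL T f) {q : Ideal R} (hq : q ∈ T) : InL {q} f :=
  hf.mono fun q' hq' => ⟨q, hq, by rw [Set.mem_singleton_iff.1 hq']⟩

theorem inL_div [IsFractionRing R F] {a b : R} (hb : b ≠ 0) (h : ∀ q ∈ T, b ∉ q) :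
    InL T (algebraMap R F a / algebraMap R F b) := by
  refine ⟨b, a, hb, h, ?_⟩
  have : algebraMap R F b ≠ 0 := by
    rw [Ne, FaithfulSMul.algebraMap_eq_zero_iff]
    exact hb
  field_simp

theorem InL.frac [IsFractionRing R F] (h : InL T f) : ∃ a b : R, b ≠ 0 ∧ (∀ q ∈ T, b ∉ q) ∧
    f = algebraMap R F a / algebraMap R F b := by
  obtain ⟨s, r, hs, hq, e⟩ := h
  have : algebraMap R F s ≠ 0 := by
    rw [Ne, FaithfulSMul.algebraMap_eq_zero_iff]
    exact hs
  exact ⟨r, s, hs, hq, by rw [← e]; field_simp⟩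

/-- finite prime avoidance -/
theorem inL_of_forall [IsFractionRing R F] (hfin : T.Finite) (hT : ∀ q ∈ T, q.IsPrime)
    (h : ∀ q ∈ T, InL {q} f) : InL T f := by
  classical
  -- the ideal of denominators
  let I : Ideal R :=
    { carrier := {s | ∃ r, algebraMap R F s * f = algebraMap R F r}
      add_mem' := by
        rintro a b ⟨r, hr⟩ ⟨r', hr'⟩
        exact ⟨r + r', by rw [map_add, add_mul, hr, hr', map_add]⟩
      zero_mem' := ⟨0, by simp⟩
      smul_mem' := by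
        rintro c x ⟨r, hr⟩
        exact ⟨c * r, by rw [smul_eq_mul, map_mul, mul_assoc, hr, map_mul]⟩ }
  have hI0 : ∃ s ∈ I, s ≠ 0 := by
    obtain ⟨a, b, hb, e⟩ := IsFractionRing.div_surjective (A := R) f
    have hb0 : b ≠ 0 := nonZeroDivisors.ne_zero hb
    have : algebraMap R F b ≠ 0 := by
      rw [Ne, FaithfulSMul.algebraMap_eq_zero_iff]
      exact hb0
    exact ⟨b, ⟨a, by rw [← e]; field_simp⟩, hb0⟩
  by_cases hne : T.Nonempty
  · have key : ¬ ((I : Set R) ⊆ ⋃ q ∈ (hfin.toFinset : Set (Ideal R)), (q : Set R)) := by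
      intro hsub
      rw [Ideal.subset_union_prime (f := fun q : Ideal R => q) ⊥ ⊥
        (fun q hq _ _ => hT q (hfin.mem_toFinset.1 hq))] at hsub
      obtain ⟨q, hq, hle⟩ := hsub
      obtain ⟨s, r, hs, hsq, e⟩ := h q (hfin.mem_toFinset.1 hq)
      exact hsq q rfl (hle ⟨r, e⟩)
    rw [Set.not_subset] at key
    obtain ⟨s, ⟨r, hr⟩, hs⟩ := key
    have hs' : ∀ q ∈ T, s ∉ q := by
      intro q hq hm
      exact hs (Set.mem_biUnion (hfin.mem_toFinset.2 hq) hm)
    obtain ⟨q, hq⟩ := hne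
    exact ⟨s, r, fun h0 => hs' q hq (h0 ▸ q.zero_mem), hs', hr⟩
  · obtain ⟨s, ⟨r, hr⟩, hs0⟩ := hI0
    exact ⟨s, r, hs0, fun q hq => absurd ⟨q, hq⟩ hne, hr⟩

theorem inL_union [IsFractionRing R F] (hfin : T.Finite) (hfin' : T'.Finite)
    (hT : ∀ q ∈ T, q.IsPrime) (hT' : ∀ q ∈ T', q.IsPrime)
    (h : InL T f) (h' : InL T' f) : InL (T ∪ T') f := by
  refine inL_of_forall (hfin.union hfin') ?_ ?_
  · rintro q (hq | hq)
    exacts [hT q hq, hT' q hq]
  · rintro q (hq | hq)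
    exacts [h.single hq, h'.single hq]

variable {p : R}

theorem one_add_mem {s r : R} {q : Ideal R} (_hq : q.IsPrime) (hp : p ∈ q) (hs : s ∉ q) {k : ℕ}
    (hk : 1 ≤ k) : s + p ^ k * r ∉ q := by
  intro h
  apply hs
  have h1 : p ^ k * r ∈ q := q.mul_mem_right r (q.pow_mem_of_mem hp k (by omega))
  have := q.sub_mem h h1
  simpa using this

/-- `1 + p ^ k a` is not zero -/
theorem one_add_ne [IsFractionRing R F] (hne : T.Nonempty) (hT : ∀ q ∈ T, q.IsPrime)
    (hp : ∀ q ∈ T, p ∈ q) (ha : InL T f) {k : ℕ} (hk : 1 ≤ k) :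
    1 + algebraMap R F p ^ k * f ≠ 0 := by
  obtain ⟨s, r, hs, hq, e⟩ := ha
  obtain ⟨q, hqT⟩ := hne
  intro h0
  have h1 : algebraMap R F (s + p ^ k * r) = 0 := by
    rw [map_add, map_mul, map_pow, ← e]
    linear_combination algebraMap R F s * h0
  rw [FaithfulSMul.algebraMap_eq_zero_iff] at h1
  exact one_add_mem (hT q hqT) (hp q hqT) (hq q hqT) hk (h1 ▸ q.zero_mem)

/-- `(1 + p ^ k a)⁻¹` is integral -/
theorem inL_inv_one_add [IsFractionRing R F] (hT : ∀ q ∈ T, q.IsPrime)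
    (hp : ∀ q ∈ T, p ∈ q) (ha : InL T f) {k : ℕ} (hk : 1 ≤ k) :
    InL T (1 + algebraMap R F p ^ k * f)⁻¹ := by
  by_cases h0 : 1 + algebraMap R F p ^ k * f = 0
  · rw [h0, inv_zero]
    exact inL_zero hT
  obtain ⟨s, r, hs, hq, e⟩ := ha
  have h1 : algebraMap R F (s + p ^ k * r) =
      algebraMap R F s * (1 + algebraMap R F p ^ k * f) := by
    rw [map_add, map_mul, map_pow, ← e]
    ring
  have hs' : algebraMap R F s ≠ 0 := by
    rw [Ne, FaithfulSMul.algebraMap_eq_zero_iff]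
    exact hs
  refine ⟨s + p ^ k * r, s, ?_, fun q hqT => one_add_mem (hT q hqT) (hp q hqT) (hq q hqT) hk, ?_⟩
  · intro h2
    rw [h2, map_zero] at h1
    exact mul_ne_zero hs' h0 h1.symm
  · rw [h1]
    field_simp

end InL

section UnA
variable {R F : Type u} [CommRing R] [IsDomain R] [Field F] [Algebra R F]
variable {P : Ideal R} {f g : F}

theorem singleton_prime (hP : P.IsPrime) : ∀ q ∈ ({P} : Set (Ideal R)), q.IsPrime := by
  rintro q rfl
  exact hP

theorem UnA.mul (hP : P.IsPrime) (hf : UnA P f) (hg : UnA P g) : UnA P (f * g) :=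
  ⟨mul_ne_zero hf.1 hg.1, hf.2.1.mul (singleton_prime hP) hg.2.1, by
    rw [mul_inv]; exact hf.2.2.mul (singleton_prime hP) hg.2.2⟩

theorem UnA.inv (hf : UnA P f) : UnA P f⁻¹ :=
  ⟨inv_ne_zero hf.1, hf.2.2, by rw [inv_inv]; exact hf.2.1⟩

theorem unA_one (hP : P.IsPrime) : UnA P (1 : F) :=
  ⟨one_ne_zero, inL_one (singleton_prime hP), by rw [inv_one]; exact inL_one (singleton_prime hP)⟩

theorem UnA.div (hP : P.IsPrime) (hf : UnA P f) (hg : UnA P g) : UnA P (f / g) := by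
  rw [div_eq_mul_inv]
  exact hf.mul hP hg.inv

theorem UnA.pow (hP : P.IsPrime) (hf : UnA P f) (k : ℕ) : UnA P (f ^ k) := by
  induction k with
  | zero => simpa using unA_one (F := F) hP
  | succ k ih => rw [pow_succ]; exact ih.mul hP hf

theorem UnA.zpow (hP : P.IsPrime) (hf : UnA P f) (k : ℤ) : UnA P (f ^ k) := by
  cases k with
  | ofNat k => simpa using hf.pow hP k
  | negSucc k => rw [zpow_negSucc]; exact (hf.pow hP _).inv

theorem unA_alg [IsFractionRing R F] {r : R} (h : r ∉ P) (hP : P.IsPrime) :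
    UnA P (algebraMap R F r) := by
  have hr : r ≠ 0 := fun h0 => h (h0 ▸ P.zero_mem)
  have hr' : algebraMap R F r ≠ 0 := by
    rw [Ne, FaithfulSMul.algebraMap_eq_zero_iff]
    exact hr
  refine ⟨hr', inL_alg (singleton_prime hP) r, r, 1, hr, ?_, ?_⟩
  · rintro q rfl
    exact h
  · rw [map_one]
    field_simp

/-- an element of `R` which is a unit at `P` is not in `P` -/
theorem not_mem_of_unA [IsFractionRing R F] (_hP : P.IsPrime) {r : R}
    (h : UnA P (algebraMap R F r)) : r ∉ P := by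
  obtain ⟨h0, -, s, r', hs, hq, e⟩ := h
  intro hm
  have h1 : algebraMap R F s = algebraMap R F (r * r') := by
    rw [map_mul, ← e]
    field_simp
  have h2 : s = r * r' := IsFractionRing.injective R F h1
  exact hq P rfl (h2 ▸ P.mul_mem_right r' hm)

/-- if `s f = r` with `s` outside `P` and `f` a unit at `P`, then `r` is outside `P` -/
theorem not_mem_of_unA_mul [IsFractionRing R F] (hP : P.IsPrime) (hf : UnA P f) {s r : R}
    (hs : s ∉ P) (e : algebraMap R F s * f = algebraMap R F r) : r ∉ P := by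
  apply not_mem_of_unA (F := F) hP
  rw [← e]
  exact (unA_alg hs hP).mul hP hf

/-- integral and not a unit: in the maximal ideal -/
theorem exists_of_not_unA [IsFractionRing R F] (hP : P.IsPrime) (hf : InL {P} f)
    (h : ¬ UnA P f) : ∃ s r : R, s ∉ P ∧ r ∈ P ∧ algebraMap R F s * f = algebraMap R F r := by
  obtain ⟨s, r, hs, hq, e⟩ := hf
  refine ⟨s, r, hq P rfl, ?_, e⟩
  by_contra hr
  apply h
  have hs' : algebraMap R F s ≠ 0 := by
    rw [Ne, FaithfulSMul.algebraMap_eq_zero_iff]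
    exact hs
  have : f = algebraMap R F r / algebraMap R F s := by
    rw [← e]; field_simp
  rw [this]
  exact (unA_alg hr hP).div hP (unA_alg (hq P rfl) hP)

/-- `1 + (maximal ideal)` consists of units -/
theorem unA_one_add [IsFractionRing R F] (hP : P.IsPrime) {c : F} (hf : InL {P} f)
    (h : ¬ UnA P f) (hc : InL {P} c) : UnA P (1 + c * f) := by
  obtain ⟨s, r, hs, hr, e⟩ := exists_of_not_unA hP hf h
  obtain ⟨s', r', hs'0, hs', e'⟩ := hc
  have hs1 : algebraMap R F s ≠ 0 := by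
    rw [Ne, FaithfulSMul.algebraMap_eq_zero_iff]
    rintro rfl
    exact hs P.zero_mem
  have hs2 : algebraMap R F s' ≠ 0 := by
    rw [Ne, FaithfulSMul.algebraMap_eq_zero_iff]
    exact hs'0
  have h1 : s * s' + r * r' ∉ P := by
    intro hm
    have h2 : s * s' ∈ P := by
      have := P.sub_mem hm (P.mul_mem_right r' hr)
      simpa using this
    rcases hP.mem_or_mem h2 with h3 | h3
    · exact hs h3
    · exact hs' P rfl h3
  have h4 : 1 + c * f = algebraMap R F (s * s' + r * r') / algebraMap R F (s * s') := by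
    rw [map_add, map_mul, map_mul, ← e, ← e']
    field_simp
  rw [h4]
  refine (unA_alg h1 hP).div hP (unA_alg ?_ hP)
  intro h3
  rcases hP.mem_or_mem h3 with h3 | h3
  · exact hs h3
  · exact hs' P rfl h3

end UnA

section Sm
variable {R F : Type u} [CommRing R] [IsDomain R] [Field F] [Algebra R F] [IsFractionRing R F]
variable {T T' : Set (Ideal R)} {f g : F} {S : Sit R}

theorem p_ne (S : Sit R) : algebraMap R F S.p ≠ 0 := by
  rw [Ne, FaithfulSMul.algebraMap_eq_zero_iff]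
  exact S.p0

theorem pp_ne (S : Sit R) (k : ℕ) : algebraMap R F S.p ^ k ≠ 0 := pow_ne_zero _ (p_ne S)

/-- small elements at `T`: `f` in `1 + p ^ (n + 1) R_T`, `f` not zero -/
def Sm (S : Sit R) (T : Set (Ideal R)) (f : F) : Prop :=
  f ≠ 0 ∧ InL T ((f - 1) / algebraMap R F S.p ^ (S.n + 1))

theorem sm_iff : Sm S T f ↔ f ≠ 0 ∧ ∃ a : F, InL T a ∧
    f = 1 + algebraMap R F S.p ^ (S.n + 1) * a := by
  constructor
  · rintro ⟨h0, h⟩
    refine ⟨h0, _, h, ?_⟩
    have := pp_ne (F := F) S (S.n + 1)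
    field_simp
    ring
  · rintro ⟨h0, a, ha, rfl⟩
    refine ⟨h0, ?_⟩
    have := pp_ne (F := F) S (S.n + 1)
    rw [add_sub_cancel_left, mul_div_cancel_left₀ _ this]
    exact ha

theorem Sm.inL (hT : ∀ q ∈ T, q.IsPrime) (h : Sm S T f) : InL T f := by
  obtain ⟨-, a, ha, rfl⟩ := sm_iff.1 h
  exact (inL_one hT).add hT (((inL_alg hT S.p).pow hT _).mul hT ha)

theorem sm_one (hT : ∀ q ∈ T, q.IsPrime) : Sm S T (1 : F) :=
  ⟨one_ne_zero, by simpa using inL_zero (F := F) hT⟩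

theorem Sm.mul (hT : ∀ q ∈ T, q.IsPrime) (h : Sm S T f) (h' : Sm S T g) : Sm S T (f * g) := by
  refine ⟨mul_ne_zero h.1 h'.1, ?_⟩
  have e : (f * g - 1) / algebraMap R F S.p ^ (S.n + 1) =
      f * ((g - 1) / algebraMap R F S.p ^ (S.n + 1)) +
      (f - 1) / algebraMap R F S.p ^ (S.n + 1) := by ring
  rw [e]
  exact ((h.inL hT).mul hT h'.2).add hT h.2

theorem Sm.inv (hT : ∀ q ∈ T, q.IsPrime) (hp : ∀ q ∈ T, S.p ∈ q) (h : Sm S T f) :
    Sm S T f⁻¹ := by
  refine ⟨inv_ne_zero h.1, ?_⟩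
  have e : (f⁻¹ - 1) / algebraMap R F S.p ^ (S.n + 1) =
      -(f⁻¹ * ((f - 1) / algebraMap R F S.p ^ (S.n + 1))) := by
    have := h.1
    have := pp_ne (F := F) S (S.n + 1)
    field_simp
    ring
  rw [e]
  obtain ⟨-, a, ha, rfl⟩ := sm_iff.1 h
  exact ((inL_inv_one_add hT hp ha (by omega)).mul hT h.2).neg

theorem Sm.pow (hT : ∀ q ∈ T, q.IsPrime) (h : Sm S T f) (k : ℕ) : Sm S T (f ^ k) := by
  induction k with
  | zero => simpa using sm_one (F := F) hT
  | succ k ih => rw [pow_succ]; exact ih.mul hT h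

theorem Sm.zpow (hT : ∀ q ∈ T, q.IsPrime) (hp : ∀ q ∈ T, S.p ∈ q) (h : Sm S T f) (k : ℤ) :
    Sm S T (f ^ k) := by
  cases k with
  | ofNat k => simpa using h.pow hT k
  | negSucc k => rw [zpow_negSucc]; exact (h.pow hT _).inv hT hp

theorem Sm.mono (h : ∀ q' ∈ T', Below T q') (hf : Sm S T f) : Sm S T' f := ⟨hf.1, hf.2.mono h⟩

theorem Sit.T_ne (S : Sit R) (y : S.Y) (q : Ideal R) (hq : q ∈ S.T y) : q.IsPrime := S.pr y q hq

theorem Sit.Sig_prime (S : Sit R) : ∀ q ∈ S.Sig, q.IsPrime := fun _ h => h.1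

theorem Sit.Sig_mem (S : Sit R) : ∀ q ∈ S.Sig, S.p ∈ q := fun _ h => h.2.2

theorem Sit.Hor_prime (S : Sit R) : ∀ q ∈ S.Hor, q.IsPrime := fun _ h => h.1

end Sm

section InJ
variable {R F : Type u} [CommRing R] [IsDomain R] [Field F] [Algebra R F]
variable {T T' : Set (Ideal R)} {f g : F}

theorem InJ.inL {k : ℕ} (h : InJ T k f) : InL T f := by
  obtain ⟨s, r, hs, hq, -, e⟩ := h
  exact ⟨s, r, hs, hq, e⟩

theorem InJ.mono {k k' : ℕ} (hk : k' ≤ k) (h : InJ T k f) : InJ T k' f := by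
  obtain ⟨s, r, hs, hq, hr, e⟩ := h
  exact ⟨s, r, hs, hq, Ideal.pow_le_pow_right hk hr, e⟩

theorem InJ.mul_left (hT : ∀ q ∈ T, q.IsPrime) {k : ℕ} (h : InJ T k f) (hg : InL T g) :
    InJ T k (g * f) := by
  obtain ⟨s, r, hs, hq, hr, e⟩ := h
  obtain ⟨s', r', hs', hq', e'⟩ := hg
  refine ⟨s' * s, r' * r, mul_ne_zero hs' hs, fun q hqT hm => ?_, Ideal.mul_mem_left _ _ hr, ?_⟩
  · rcases (hT q hqT).mem_or_mem hm with h1 | h1
    · exact hq' q hqT h1
    · exact hq q hqT h1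
  · simp only [map_mul, ← e, ← e']
    ring

theorem InJ.add (hT : ∀ q ∈ T, q.IsPrime) {k : ℕ} (h : InJ T k f) (h' : InJ T k g) :
    InJ T k (f + g) := by
  obtain ⟨s, r, hs, hq, hr, e⟩ := h
  obtain ⟨s', r', hs', hq', hr', e'⟩ := h'
  refine ⟨s * s', r * s' + r' * s, mul_ne_zero hs hs', fun q hqT hm => ?_,
    Ideal.add_mem _ (Ideal.mul_mem_right _ _ hr) (Ideal.mul_mem_right _ _ hr'), ?_⟩
  · rcases (hT q hqT).mem_or_mem hm with h1 | h1
    · exact hq q hqT h1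
    · exact hq' q hqT h1
  · simp only [map_mul, map_add, ← e, ← e']
    ring

theorem InJ.neg {k : ℕ} (h : InJ T k f) : InJ T k (-f) := by
  obtain ⟨s, r, hs, hq, hr, e⟩ := h
  exact ⟨s, -r, hs, hq, neg_mem hr, by rw [mul_neg, e, map_neg]⟩

/-- the form in which RAD is used: an element of `J ^ k R_T` is `b d1 + c d2` -/
theorem InJ.decomp [IsFractionRing R F] (hT : ∀ q ∈ T, q.IsPrime) {k : ℕ} {b c s : R}
    (hs0 : s ≠ 0) (hs : ∀ q ∈ T, s ∉ q) (h : ∀ z ∈ (sInf T) ^ k, s * z ∈ Ideal.span {b, c})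
    (hf : InJ T k f) : ∃ d1 d2 : F, InL T d1 ∧ InL T d2 ∧
      f = algebraMap R F b * d1 + algebraMap R F c * d2 := by
  obtain ⟨s', r, hs', hq, hr, e⟩ := hf
  obtain ⟨x, y, hxy⟩ := Ideal.mem_span_pair.1 (h r hr)
  have h1 : algebraMap R F s ≠ 0 := by
    rw [Ne, FaithfulSMul.algebraMap_eq_zero_iff]; exact hs0
  have h2 : algebraMap R F s' ≠ 0 := by
    rw [Ne, FaithfulSMul.algebraMap_eq_zero_iff]; exact hs'
  have h3 : ∀ q ∈ T, s * s' ∉ q := by
    intro q hqT hm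
    rcases (hT q hqT).mem_or_mem hm with h3 | h3
    · exact hs q hqT h3
    · exact hq q hqT h3
  refine ⟨algebraMap R F x / algebraMap R F (s * s'), algebraMap R F y / algebraMap R F (s * s'),
    inL_div (mul_ne_zero hs0 hs') h3, inL_div (mul_ne_zero hs0 hs') h3, ?_⟩
  have h4 : algebraMap R F x * algebraMap R F b + algebraMap R F y * algebraMap R F c =
      algebraMap R F s * (algebraMap R F s' * f) := by
    rw [e, ← map_mul, ← map_mul, ← map_add, hxy, map_mul]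
  rw [map_mul]
  field_simp
  linear_combination -h4

end InJ

section Symb
variable {F M : Type u} [Field F] [AddCommGroup M] (σ : Symb F M) {a b c : F}

theorem Symb.one_left (hc : c ≠ 0) : σ.s 1 c = 0 := by
  have := σ.mul_left 1 1 c one_ne_zero one_ne_zero hc
  rw [one_mul] at this
  simpa using this

theorem Symb.one_right (hc : c ≠ 0) : σ.s c 1 = 0 := by
  have := σ.mul_right c 1 1 hc one_ne_zero one_ne_zero
  rw [one_mul] at this
  simpa using this

theorem Symb.inv_left (ha : a ≠ 0) (hc : c ≠ 0) : σ.s a⁻¹ c = -σ.s a c := by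
  have := σ.mul_left a a⁻¹ c ha (inv_ne_zero ha) hc
  rw [mul_inv_cancel₀ ha, σ.one_left hc] at this
  exact eq_neg_of_add_eq_zero_right this.symm

theorem Symb.inv_right (ha : a ≠ 0) (hc : c ≠ 0) : σ.s c a⁻¹ = -σ.s c a := by
  have := σ.mul_right c a a⁻¹ hc ha (inv_ne_zero ha)
  rw [mul_inv_cancel₀ ha, σ.one_right hc] at this
  exact eq_neg_of_add_eq_zero_right this.symm

theorem Symb.div_left (ha : a ≠ 0) (hb : b ≠ 0) (hc : c ≠ 0) :
    σ.s (a / b) c = σ.s a c - σ.s b c := by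
  rw [div_eq_mul_inv, σ.mul_left _ _ _ ha (inv_ne_zero hb) hc, σ.inv_left hb hc, sub_eq_add_neg]

theorem Symb.div_right (ha : a ≠ 0) (hb : b ≠ 0) (hc : c ≠ 0) :
    σ.s c (a / b) = σ.s c a - σ.s c b := by
  rw [div_eq_mul_inv, σ.mul_right _ _ _ hc ha (inv_ne_zero hb), σ.inv_right hb hc, sub_eq_add_neg]

theorem Symb.pow_left (ha : a ≠ 0) (hc : c ≠ 0) (k : ℕ) : σ.s (a ^ k) c = k • σ.s a c := by
  induction k with
  | zero => rw [pow_zero, σ.one_left hc, zero_smul]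
  | succ k ih => rw [pow_succ, σ.mul_left _ _ _ (pow_ne_zero _ ha) ha hc, ih, succ_nsmul]

theorem Symb.pow_right (ha : a ≠ 0) (hc : c ≠ 0) (k : ℕ) : σ.s c (a ^ k) = k • σ.s c a := by
  induction k with
  | zero => rw [pow_zero, σ.one_right hc, zero_smul]
  | succ k ih => rw [pow_succ, σ.mul_right _ _ _ hc (pow_ne_zero _ ha) ha, ih, succ_nsmul]

theorem Symb.zpow_left (ha : a ≠ 0) (hc : c ≠ 0) (k : ℤ) : σ.s (a ^ k) c = k • σ.s a c := by
  cases k with
  | ofNat k => simpa using σ.pow_left ha hc k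
  | negSucc k =>
    rw [zpow_negSucc, σ.inv_left (pow_ne_zero _ ha) hc, σ.pow_left ha hc, negSucc_zsmul]

theorem Symb.zpow_right (ha : a ≠ 0) (hc : c ≠ 0) (k : ℤ) : σ.s c (a ^ k) = k • σ.s c a := by
  cases k with
  | ofNat k => simpa using σ.pow_right ha hc k
  | negSucc k =>
    rw [zpow_negSucc, σ.inv_right (pow_ne_zero _ ha) hc, σ.pow_right ha hc, negSucc_zsmul]

/-- `{a, -a} = 0` -/
theorem Symb.neg_self (ha : a ≠ 0) : σ.s a (-a) = 0 := by
  by_cases h1 : a = 1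
  · subst h1
    exact σ.one_left (neg_ne_zero.2 one_ne_zero)
  have h2 : 1 - a ≠ 0 := sub_ne_zero.2 (Ne.symm h1)
  have h3 : 1 - a⁻¹ ≠ 0 := by
    intro h
    apply h1
    have : a⁻¹ = 1 := (sub_eq_zero.1 h).symm
    rw [← inv_inv a, this, inv_one]
  have e : -a = (1 - a) / (1 - a⁻¹) := by
    field_simp
    ring
  rw [e, σ.div_right h2 h3 ha, σ.st a (1 - a) ha h2 (by ring), zero_sub, neg_eq_zero]
  have h4 := σ.st a⁻¹ (1 - a⁻¹) (inv_ne_zero ha) h3 (by ring)
  rw [σ.inv_left ha h3, neg_eq_zero] at h4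
  exact h4

/-- antisymmetry -/
theorem Symb.comm (ha : a ≠ 0) (hb : b ≠ 0) : σ.s a b = -σ.s b a := by
  have h := σ.neg_self (mul_ne_zero ha hb)
  have ha' := neg_ne_zero.2 ha
  have hb' := neg_ne_zero.2 hb
  rw [σ.mul_left a b _ ha hb (neg_ne_zero.2 (mul_ne_zero ha hb))] at h
  have e1 : -(a * b) = (-a) * b := by ring
  have e2 : -(a * b) = a * (-b) := by ring
  have h1 : σ.s a (-(a * b)) = σ.s a b := by
    rw [e1, σ.mul_right a (-a) b ha ha' hb, σ.neg_self ha, zero_add]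
  have h2 : σ.s b (-(a * b)) = σ.s b a := by
    rw [e2, σ.mul_right b a (-b) hb ha hb', σ.neg_self hb, add_zero]
  rw [h1, h2] at h
  exact eq_neg_of_add_eq_zero_left h

/-- `{a, a} = {a, -1}` -/
theorem Symb.self (ha : a ≠ 0) : σ.s a a = σ.s a (-1) := by
  have h := σ.neg_self ha
  have e : -a = (-1) * a := by ring
  rw [e, σ.mul_right a (-1) a ha (neg_ne_zero.2 one_ne_zero) ha] at h
  have h2 : σ.s a (-1) + σ.s a (-1) = 0 := by
    rw [← σ.mul_right a (-1) (-1) ha (neg_ne_zero.2 one_ne_zero) (neg_ne_zero.2 one_ne_zero)]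
    rw [show ((-1 : F)) * (-1) = 1 by ring]
    exact σ.one_right ha
  rw [eq_neg_of_add_eq_zero_right h, ← eq_neg_of_add_eq_zero_left h2]

/-- the identity (T) -/
theorem Symb.kt (hb : b ≠ 0) (h1 : 1 + a ≠ 0) (h2 : 1 + b ≠ 0) (h3 : 1 - a * b ≠ 0) :
    σ.s (1 + a) (1 + b) = -σ.s (1 - a * b) (b * (1 + a) / (1 + b)) := by
  have hb' := neg_ne_zero.2 hb
  have hbp : -b * (1 + a) ≠ 0 := mul_ne_zero hb' h1
  have hm : (-1 : F) ≠ 0 := neg_ne_zero.2 one_ne_zero
  -- Q = 1 + b, P = 1 + a, W = 1 - a b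
  have hst := σ.st ((1 + b) / (1 - a * b)) (-b * (1 + a) / (1 - a * b)) (div_ne_zero h2 h3)
    (div_ne_zero hbp h3) (by rw [← add_div, div_eq_one_iff_eq h3]; ring)
  rw [σ.div_left h2 h3 (div_ne_zero hbp h3), σ.div_right hbp h3 h2, σ.div_right hbp h3 h3,
    σ.mul_right _ _ _ h2 hb' h1, σ.mul_right _ _ _ h3 hb' h1,
    σ.st (1 + b) (-b) h2 hb' (by ring), σ.self h3] at hst
  rw [σ.div_right (mul_ne_zero hb h1) h2 h3, σ.mul_right _ _ _ h3 hb h1]
  have e1 : σ.s (1 - a * b) (-b) = σ.s (1 - a * b) (-1) + σ.s (1 - a * b) b := by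
    rw [← σ.mul_right _ _ _ h3 hm hb]
    congr 1
    ring
  rw [e1] at hst
  have e2 := σ.comm h2 h3
  have e3 := σ.comm h1 h2
  have hmm : σ.s (1 - a * b) (-1) + σ.s (1 - a * b) (-1) = 0 := by
    rw [← σ.mul_right _ _ _ h3 hm hm, show ((-1 : F)) * (-1) = 1 by ring]
    exact σ.one_right h3
  rw [e2] at hst
  rw [e3]
  have : σ.s (1 + b) (1 + a) = σ.s (1 - a * b) b + σ.s (1 - a * b) (1 + a) -
      σ.s (1 - a * b) (1 + b) := by
    have h5 : σ.s (1 + b) (1 + a) - (σ.s (1 - a * b) b + σ.s (1 - a * b) (1 + a) -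
      σ.s (1 - a * b) (1 + b)) =
      (0 + σ.s (1 + b) (1 + a) - -σ.s (1 - a * b) (1 + b) -
        (σ.s (1 - a * b) (-1) + σ.s (1 - a * b) b + σ.s (1 - a * b) (1 + a) -
          σ.s (1 - a * b) (-1))) := by abel
    rw [hst] at h5
    exact sub_eq_zero.1 h5
  rw [this]

end Symb

section U
variable {R F M : Type u} [CommRing R] [IsDomain R] [Field F] [Algebra R F] [IsFractionRing R F]
  [AddCommGroup M]
variable {S : Sit R} {σ : Symb F M} {T T' : Set (Ideal R)} {f g : F}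

theorem Sm.mem_U (h : Sm S T f) (hg : g ≠ 0) : σ.s f g ∈ U S σ T := by
  obtain ⟨h0, a, ha, rfl⟩ := sm_iff.1 h
  exact AddSubgroup.subset_closure ⟨a, g, ha, hg, h0, rfl⟩

theorem Sm.mem_U_right (h : Sm S T f) (hg : g ≠ 0) : σ.s g f ∈ U S σ T := by
  rw [σ.comm hg h.1]
  exact neg_mem (h.mem_U hg)

theorem U_mono (h : ∀ q' ∈ T', Below T q') : U S σ T ≤ U S σ T' := by
  refine (AddSubgroup.closure_le _).2 ?_
  rintro _ ⟨a, g, ha, hg, h0, rfl⟩
  exact AddSubgroup.subset_closure ⟨a, g, ha.mono h, hg, h0, rfl⟩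

/-- `{1 + a, 1 + b}` is small if `a b` is -/
theorem mem_U_of_mul (hne : T.Nonempty) (hT : ∀ q ∈ T, q.IsPrime) (hp : ∀ q ∈ T, S.p ∈ q)
    {a b c : F} (h1 : 1 + a ≠ 0) (h2 : 1 + b ≠ 0) (hc : InL T c)
    (e : a * b = algebraMap R F S.p ^ (S.n + 1) * c) : σ.s (1 + a) (1 + b) ∈ U S σ T := by
  by_cases hb : b = 0
  · rw [hb, add_zero, σ.one_right h1]
    exact zero_mem _
  have hneg : InL T (-c) := hc.neg
  have e3 : 1 - a * b = 1 + algebraMap R F S.p ^ (S.n + 1) * (-c) := by rw [e]; ring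
  have h3 : 1 - a * b ≠ 0 := by
    rw [e3]
    exact one_add_ne hne hT hp hneg (by omega)
  rw [σ.kt hb h1 h2 h3]
  apply neg_mem
  apply Sm.mem_U _ (div_ne_zero (mul_ne_zero hb h1) h2)
  exact sm_iff.2 ⟨h3, -c, hneg, e3⟩

/-- the same with exponent `n`, using the root property -/
theorem mem_U_of_mul_root {q : ℕ} (hq : ∀ m : M, q • m = 0) (hR : Root F S q) (y : S.Y)
    {a b c : F} (h1 : 1 + a ≠ 0) (h2 : 1 + b ≠ 0) (hc : InL (S.T y) c)
    (e : a * b = algebraMap R F S.p ^ S.n * c) : σ.s (1 + a) (1 + b) ∈ U S σ (S.T y) := by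
  by_cases hb : b = 0
  · rw [hb, add_zero, σ.one_right h1]
    exact zero_mem _
  have hneg : InL (S.T y) (-c) := hc.neg
  have e3 : 1 - a * b = 1 + algebraMap R F S.p ^ S.n * (-c) := by rw [e]; ring
  have h3 : 1 - a * b ≠ 0 := by
    rw [e3]
    exact one_add_ne (S.ne y) (S.pr y) (S.mem y) hneg S.n1
  rw [σ.kt hb h1 h2 h3]
  apply neg_mem
  obtain ⟨d, a', hd, ha', e4⟩ := hR y (-c) hneg
  have hx : b * (1 + a) / (1 + b) ≠ 0 := div_ne_zero (mul_ne_zero hb h1) h2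
  rw [e3, e4] at h3 ⊢
  have h5 : 1 + algebraMap R F S.p ^ (S.n + 1) * a' ≠ 0 := right_ne_zero_of_mul h3
  rw [σ.mul_left _ _ _ (pow_ne_zero _ hd) h5 hx, σ.pow_left hd hx, hq, zero_add]
  exact Sm.mem_U (sm_iff.2 ⟨h5, a', ha', rfl⟩) hx

/-- the liftable elements form a subgroup -/
def liftSub (S : Sit R) (σ : Symb F M) (y : S.Y) : AddSubgroup M where
  carrier := {c | Lift S σ y c}
  zero_mem' := ⟨0, zero_mem _, by simp [zero_mem], fun _ _ => zero_mem _⟩
  add_mem' := by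
    rintro a b ⟨a', ha, ha1, ha2⟩ ⟨b', hb, hb1, hb2⟩
    exact ⟨a' + b', add_mem ha hb, by
      have := add_mem ha1 hb1
      rwa [show a' - a + (b' - b) = a' + b' - (a + b) by abel] at this,
      fun y' hy => add_mem (ha2 y' hy) (hb2 y' hy)⟩
  neg_mem' := by
    rintro a ⟨a', ha, ha1, ha2⟩
    exact ⟨-a', neg_mem ha, by
      have := neg_mem ha1
      rwa [show -(a' - a) = -a' - -a by abel] at this, fun y' hy => neg_mem (ha2 y' hy)⟩

theorem mem_liftSub {y : S.Y} {c : M} : c ∈ liftSub S σ y ↔ Lift S σ y c := Iff.rfl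

theorem lift_of_mem {y : S.Y} {c : M} (h : c ∈ U S σ (S.T y)) : Lift S σ y c :=
  ⟨0, zero_mem _, by rw [zero_sub]; exact neg_mem h, fun _ _ => zero_mem _⟩

theorem U_le_liftSub (y : S.Y) : U S σ (S.T y) ≤ liftSub S σ y := fun _ h => lift_of_mem h

theorem Lift.congr {y : S.Y} {c c' : M} (h : Lift S σ y c) (h' : c' - c ∈ U S σ (S.T y)) :
    Lift S σ y c' := by
  have := add_mem (mem_liftSub.2 h) (U_le_liftSub y h')
  rwa [add_sub_cancel] at this

end U

end Pool.Agent.H92.KST
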