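import Pool.Agent.H92.KST.NagX

/-!
# Project KEW: the standing situation of STARX at the points of a scheme
-/

set_option autoImplicit false
set_option linter.dupNamespace false

universe u

namespace Pool.Agent.H92.KST

open AlgebraicGeometry CategoryTheory Pool.Agent.H12.KG Pool.Agent.H19.KN Pool.Agent.H15.KEW
open IsLocalRing

/-- The residue field of a horizontal point has characteristic zero. -/
theorem charZero_pt {A : Type u} [CommRing A] [IsDomain A] [IsDiscreteValuationRing A]
    [CharZero A] {X : Scheme.{u}} (f : X ⟶ Spec (CommRingCat.of A)) {π : A} (hπ : Irreducible π)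
    {w : X} (hw : ¬ Sp f π w) :
    Function.Injective (kA f w) ∧ CharZero (X.residueField w) := by
  have hπw : kA f w π ≠ 0 := fun h0 => hw ((sp_iff' f π w).2 h0)
  have hinj : Function.Injective (kA f w) := by
    rw [injective_iff_map_eq_zero]
    intro a ha
    by_contra ha0
    obtain ⟨n, u, hu⟩ := IsDiscreteValuationRing.eq_unit_mul_pow_irreducible ha0 hπ
    rw [hu, map_mul, map_pow] at ha
    have h1 : kA f w (u : A) ≠ 0 := (u.isUnit.map _).ne_zero
    rcases mul_eq_zero.1 ha with h2 | h2
    · exact h1 h2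
    · exact pow_ne_zero n hπw h2
  refine ⟨hinj, ?_⟩
  let _ : Algebra A (X.residueField w) := (kA f w).toAlgebra
  exact charZero_of_injective_algebraMap (R := A) hinj

/-- All local rings of a scheme locally of finite type over a noetherian ring are noetherian. -/
theorem noeth_stalk {A : Type u} [CommRing A] [IsNoetherianRing A] {X : Scheme.{u}}
    (f : X ⟶ Spec (CommRingCat.of A)) [LocallyOfFiniteType f] (x : X) :
    IsNoetherianRing (X.presheaf.stalk x) := by
  have : IsLocallyNoetherian X := LocallyOfFiniteType.isLocallyNoetherian f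
  infer_instance

/-- The standing situation at a pair of points. -/
theorem ptSit (hNAG : T_NAG.{u}) {A : Type u} [CommRing A] [IsDomain A]
    [IsDiscreteValuationRing A] [CharZero A] {X : Scheme.{u}}
    (f : X ⟶ Spec (CommRingCat.of A)) [LocallyOfFiniteType f] {π : A} (hπ : Irreducible π)
    {q E : ℕ} {ε : A} (hε : IsUnit ε) (hq : (q : A) = ε * π ^ E) (hq1 : 1 ≤ q)
    {w x : X} (h : w ⤳ x) (hw : ¬ Sp f π w) (hx : Sp f π x) :
    PtSit (rho h).range (kA f w π) q E := by
  obtain ⟨hinj, hchar⟩ := charZero_pt f hπ hw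
  have hπw : kA f w π ≠ 0 := fun h0 => hw ((sp_iff' f π w).2 h0)
  obtain ⟨C, _, φ, ψ, hφ, hst, hloc, hlocw⟩ := chart f h
  let _ : Algebra A (X.residueField w) := (kA f w).toAlgebra
  -- the subalgebra
  let _ : Algebra A C := φ.toAlgebra
  have hft : Algebra.FiniteType A C := hφ
  let θ : C →ₐ[A] X.residueField w :=
    { (rho h).comp ψ with
      commutes' := fun a => by
        show rho h (ψ (φ a)) = kA f w a
        rw [hst, rho_stA] }
  have hθ : ∀ c, θ c = rho h (ψ c) := fun _ => rfl
  have hB : θ.range.FG := by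
    have := (Algebra.FiniteType.out (R := A) (A := C)).map θ
    rwa [Algebra.map_top] at this
  -- the local ring
  let O : Subring (X.residueField w) := (rho h).range
  have hBO : ∀ b ∈ θ.range, b ∈ O := by
    rintro _ ⟨c, rfl⟩
    exact ⟨ψ c, rfl⟩
  let ρ : X.presheaf.stalk x →+* O := (rho h).rangeRestrict
  have hρs : Function.Surjective ρ := (rho h).rangeRestrict_surjective
  have hlocO : IsLocalRing O := IsLocalRing.of_surjective' ρ hρs
  have hρu : ∀ s : X.presheaf.stalk x, IsUnit (ρ s) → IsUnit s := by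
    have : IsLocalHom ρ := IsLocalHom.of_surjective ρ hρs
    intro s hs
    exact isUnit_of_map_unit ρ s hs
  let j : θ.range →+* O :=
    { toFun := fun b => ⟨b, hBO b b.2⟩
      map_one' := rfl
      map_mul' := fun _ _ => rfl
      map_zero' := rfl
      map_add' := fun _ _ => rfl }
  let P : Ideal θ.range := (maximalIdeal O).comap j
  have hP : ∀ b : θ.range, b ∉ P ↔ IsUnit (j b) := by
    intro b
    show j b ∉ maximalIdeal O ↔ _
    rw [mem_maximalIdeal, mem_nonunits_iff, not_not]
  have hO : ∀ g : X.residueField w, g ∈ O ↔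
      ∃ s : θ.range, s ∉ P ∧ (s : X.residueField w) * g ∈ θ.range := by
    intro g
    constructor
    · rintro ⟨s, rfl⟩
      obtain ⟨c, t, ht, hct⟩ := hloc s
      refine ⟨⟨θ t, t, rfl⟩, ?_, ?_⟩
      · rw [hP]
        have : j ⟨θ t, t, rfl⟩ = ρ (ψ t) := rfl
        rw [this]
        exact ht.map ρ
      · exact ⟨c, by
          show rho h (ψ c) = rho h (ψ t) * rho h s
          rw [← hct, map_mul]⟩
    · rintro ⟨s, hs, hsg⟩
      rw [hP] at hs
      obtain ⟨v, hv⟩ := hs.exists_left_inv
      have h1 : (v : X.residueField w) * (s : X.residueField w) = 1 := congrArg Subtype.val hv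
      have h2 : g = (v : X.residueField w) * ((s : X.residueField w) * g) := by
        rw [← mul_assoc, h1, one_mul]
      rw [h2]
      exact mul_mem v.2 (hBO _ hsg)
  have hfr : ∀ g : X.residueField w, ∃ a ∈ θ.range, ∃ b ∈ θ.range, b ≠ 0 ∧ g = a / b := by
    intro g
    obtain ⟨c, t, h1, h2⟩ := hlocw g
    have h3 : g = rho h (ψ c) / rho h (ψ t) := by
      rw [eq_div_iff h1, mul_comm]; exact h2
    exact ⟨θ c, ⟨c, rfl⟩, θ t, ⟨t, rfl⟩, h1, h3⟩
  have hπP : algebraMap A θ.range π ∈ P := by
    by_contra hn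
    rw [hP] at hn
    have h1 : j (algebraMap A θ.range π) = ρ (stA f x π) := by
      apply Subtype.ext
      show kA f w π = rho h (stA f x π)
      rw [rho_stA]
    rw [h1] at hn
    exact hx (hρu _ hn)
  obtain ⟨hN, hR, hE⟩ := hNAG A (X.residueField w) hinj π hπ θ.range hB hfr P
    (Ideal.comap_isPrime j _) hπP O hO
  have hjac : ∀ a ∈ O, ∃ b ∈ O, (1 + kA f w π * a) * b = 1 := by
    intro a ha
    have h1 : j (algebraMap A θ.range π) ∈ maximalIdeal O := hπP
    have h2 : IsUnit (1 + j (algebraMap A θ.range π) * ⟨a, ha⟩) := by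
      by_contra hn
      have h3 : (1 + j (algebraMap A θ.range π) * ⟨a, ha⟩ : O) ∈ maximalIdeal O :=
        (mem_maximalIdeal _).2 hn
      have h4 : (1 : O) ∈ maximalIdeal O := by
        have := sub_mem h3 (Ideal.mul_mem_right ⟨a, ha⟩ _ h1)
        rwa [add_sub_cancel_right] at this
      exact (Ideal.ne_top_iff_one _).1 (maximalIdeal.isMaximal O).ne_top h4
    obtain ⟨b, hb⟩ := h2.exists_right_inv
    exact ⟨b, b.2, congrArg Subtype.val hb⟩
  have hfrO : ∀ g : X.residueField w, ∃ a ∈ O, ∃ b ∈ O, b ≠ 0 ∧ g = a / b := by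
    intro g
    obtain ⟨a, ha, b, hb, hb0, e⟩ := hfr g
    exact ⟨a, hBO a ha, b, hBO b hb, hb0, e⟩
  obtain ⟨ε', hε'⟩ := hε.exists_right_inv
  have hmem : ∀ a : A, kA f w a ∈ O := fun a => ⟨stA f x a, rho_stA f h a⟩
  exact
    { pi_mem := hmem π
      pi_ne := hπw
      jac := hjac
      qeq := ⟨kA f w ε, hmem ε, kA f w ε', hmem ε', by rw [← map_mul, hε', map_one], by
        rw [← map_pow, ← map_mul, ← hq, map_natCast]⟩
      q1 := hq1
      noethO := hN
      noethR := hR
      eqh := hE
      fr := hfrO }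

end Pool.Agent.H92.KST
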