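import Pool.Agent.H92.KST.Defs
import Pool.Agent.H19.KN.Defs

/-!
# Project KEW, block (e): STAR for Milnor K-groups at ring level, and block (k): NAG

`F` a field, `O` a subring (the image of the local ring `O_{X,x}`), `R` its integral closure in
`F`.  Points are primes of `O`.
-/

set_option autoImplicit false
set_option linter.dupNamespace false

universe u

namespace Pool.Agent.H92.KST

open Pool.Agent.H62.MK Pool.Agent.H19.KN

section
variable {F : Type u} [Field F]

/-- The primes of the integral closure above the prime `y` of `O`. -/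
def Over (O : Subring F) (y : Ideal O) : Set (Ideal (integralClosure O F)) :=
  {Q | Q.IsPrime ∧ Q.comap (algebraMap O (integralClosure O F)) = y}

/-- Two primes of the integral closure above the same prime of `O` have the same height. -/
def EQH (O : Subring F) : Prop :=
  ∀ Q Q' : Ideal (integralClosure O F), Q.IsPrime → Q'.IsPrime →
    Q.comap (algebraMap O (integralClosure O F)) = Q'.comap (algebraMap O (integralClosure O F)) →
    Q.height = Q'.height

/-- The primes of `O` containing `π` which lie below a prime of height `k` of the integral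
closure.  `k = 1`: generic points of the special fibre; `k = 2`: codimension one in it. -/
def YO (O : Subring F) (π : F) (k : ℕ∞) : Set (Ideal O) :=
  {y | y.IsPrime ∧ (∃ h : π ∈ O, (⟨π, h⟩ : O) ∈ y) ∧ ∃ Q ∈ Over O y, Q.height = k}

/-- The standing situation. -/
structure PtSit (O : Subring F) (π : F) (q E : ℕ) : Prop extends Good0 O π q E where
  q1 : 1 ≤ q
  noethO : IsNoetherianRing O
  noethR : IsNoetherianRing (integralClosure O F)
  eqh : EQH O
  fr : ∀ x : F, ∃ a ∈ O, ∃ b ∈ O, b ≠ 0 ∧ x = a / b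

/-- `Oy y` is the localisation of `O` at the prime `y`. -/
def LocFamily (O : Subring F) (Oy : Ideal O → Subring F) : Prop :=
  ∀ y : Ideal O, y.IsPrime → ∀ x : F, x ∈ Oy y ↔ LocMem O y x

end

/-! ### STAR for Milnor K-groups -/

/-- GENF: the set `YO O π 1` is finite and its elements are pairwise incomparable; nonzero primes
of `O` below such an element are equal to it. -/
def T_GENF : Prop :=
  ∀ (F : Type u) [Field F] (O : Subring F) (π : F) (q E : ℕ), PtSit O π q E →
    (YO O π 1).Finite ∧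
    (∀ y ∈ YO O π 1, ∀ z : Ideal O, z.IsPrime → z ≠ ⊥ → z ≤ y → z = y) ∧
    (∀ y ∈ YO O π 2, ∀ Q ∈ Over O y, Q.height = 2) ∧
    (∀ y ∈ YO O π 1, ∀ Q ∈ Over O y, Q.height = 1) ∧
    (∀ y : Ideal O, y.IsPrime → (Over O y).Finite ∧ (Over O y).Nonempty)

/-- GOODG: the rings `B_y` satisfy `Good0`, and `Good` for `y` generic in the special fibre. -/
def T_GOODG : Prop :=
  ∀ (F : Type u) [Field F] (O : Subring F) (π : F) (q E : ℕ), PtSit O π q E →
    ∀ Oy : Ideal O → Subring F, LocFamily O Oy →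
      (∀ y : Ideal O, y.IsPrime → (∃ h : π ∈ O, (⟨π, h⟩ : O) ∈ y) →
        Good0 (icl (Oy y) F) π q E) ∧
      ∀ y ∈ YO O π 1, Good (icl (Oy y) F) π q E ∧ IntClosed (icl (Oy y) F)

/-- APPG: approximation for the rings `B_y`, `y` generic in the special fibre. -/
def T_APPG : Prop :=
  ∀ (F : Type u) [Field F] (O : Subring F) (π : F) (q E : ℕ), PtSit O π q E →
    ∀ Oy : Ideal O → Subring F, LocFamily O Oy →
      ∀ (ι : Type) [Fintype ι] (f : ι → Ideal O), Function.Injective f →
        (∀ i, f i ∈ YO O π 1) → Approx π fun i => icl (Oy (f i)) F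

/-- LOCX: the integral closure of `O_y` is the localisation of `R` at the primes above `y`. -/
def T_LOCX : Prop :=
  ∀ (F : Type u) [Field F] (O : Subring F) (π : F) (q E : ℕ), PtSit O π q E →
    ∀ Oy : Ideal O → Subring F, LocFamily O Oy →
      ∀ y : Ideal O, y.IsPrime → ∀ x : F, x ∈ icl (Oy y) F ↔
        InL (R := integralClosure O F) (Over O y) x

/-- SITX: the situation of `T_STAR`. -/
def T_SITX : Prop :=
  ∀ (F : Type u) [Field F] (O : Subring F) (π : F) (q E : ℕ), PtSit O π q E →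
    ∀ n : ℕ, 1 ≤ n → IsFractionRing (integralClosure O F) F ∧
      IsIntegrallyClosed (integralClosure O F) ∧
      ∃ S : Sit (integralClosure O F), algebraMap (integralClosure O F) F S.p = π ∧ S.n = n ∧
        ∃ e : S.Y ≃ YO O π 2, (∀ y, S.T y = Over O (e y).1)

/-- SYMX: the symbols `{f, g} · w` modulo `q`. -/
def T_SYMX : Prop :=
  ∀ (F : Type u) [Field F] (q m : ℕ) (w : MilnorK F m),
    ∃ σ : Symb F (MilnorK F (m + 2) ⧸ (zsmulAddGroupHom (q : ℤ) :
        MilnorK F (m + 2) →+ MilnorK F (m + 2)).range),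
      ∀ f g : Fˣ, σ.s f g = QuotientAddGroup.mk (cup f (cup g w))

/-- STARX: STAR for Milnor K-groups -/
def T_STARX : Prop :=
  ∀ (F : Type u) [Field F] (O : Subring F) (π : F) (q E n : ℕ), PtSit O π q E → 2 * E + 2 ≤ n →
    ∀ Oy : Ideal O → Subring F, LocFamily O Oy → ∀ (m : ℕ), ∀ y0 ∈ YO O π 2,
      ∀ c : MilnorK F (m + 2),
        (∀ y ∈ YO O π 1, y ≤ y0 → c ∈ USub q π n (icl (Oy y) F) (m + 2)) →
        ∃ c' : MilnorK F (m + 2),
          (∀ y ∈ YO O π 1, c' ∈ USub q π n (icl (Oy y) F) (m + 2)) ∧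
          c' - c ∈ USub q π n (icl (Oy y0) F) (m + 2) ∧
          ∀ y ∈ YO O π 2, y ≠ y0 → c' ∈ USub q π n (icl (Oy y) F) (m + 2)

/-! ### NAG -/

/-- NA1: Noether normalisation modulo `π`, lifted. -/
def T_NA1 : Prop :=
  ∀ (A B : Type u) [CommRing A] [IsDomain A] [IsDiscreteValuationRing A] [CommRing B] [IsDomain B]
    [Algebra A B] [Algebra.FiniteType A B] (π : A), Irreducible π →
    Function.Injective (algebraMap A B) → ¬ IsUnit (algebraMap A B π) →
    ∃ (m : ℕ) (g : MvPolynomial (Fin m) A →ₐ[A] B), Function.Injective g ∧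
      ((Ideal.Quotient.mk (Ideal.span {algebraMap A B π})).comp g.toRingHom).Finite

/-- NA2: Zariski's main theorem near the special fibre. -/
def T_NA2 : Prop :=
  ∀ (P B : Type u) [CommRing P] [CommRing B] [Algebra P B] [Algebra.FiniteType P B] (π : P)
    (x : Ideal B), x.IsPrime → algebraMap P B π ∈ x →
    ((Ideal.Quotient.mk (Ideal.span {algebraMap P B π})).comp (algebraMap P B)).Finite →
    ∃ r : B, r ∉ x ∧ IsIntegral P r ∧ ∀ b : B, ∃ k : ℕ, IsIntegral P (r ^ k * b)

/-- NA3: heights in an integral extension of a normal domain. -/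
def T_NA3 : Prop :=
  ∀ (P C : Type u) [CommRing P] [IsDomain P] [IsIntegrallyClosed P] [CommRing C] [IsDomain C]
    [Algebra P C], Function.Injective (algebraMap P C) → Algebra.IsIntegral P C →
    ∀ Q : Ideal C, Q.IsPrime → Q.height = (Q.comap (algebraMap P C)).height

/-- NA4: the integral closure of `B_x` is a localisation of the integral closure of `P`. -/
def T_NA4 : Prop :=
  ∀ (P F : Type u) [CommRing P] [Field F] [Algebra P F] (B : Subalgebra P F) (x : Ideal B),
    x.IsPrime → ∀ O : Subring F, (∀ f : F, f ∈ O ↔ ∃ s : B, s ∉ x ∧ (s : F) * f ∈ B) →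
    (∃ r : B, r ∉ x ∧ IsIntegral P r ∧ ∀ b : B, ∃ k : ℕ, IsIntegral P (r ^ k * b)) →
    (∀ c ∈ integralClosure P F, c ∈ integralClosure O F) ∧
    ∀ f : F, f ∈ integralClosure O F ↔
      ∃ s : B, s ∉ x ∧ IsIntegral P s ∧ (s : F) * f ∈ integralClosure P F

/-- NA5: finiteness of the integral closure of `P`. -/
def T_NA5 : Prop :=
  ∀ (P F : Type u) [CommRing P] [IsDomain P] [IsNoetherianRing P] [IsIntegrallyClosed P] [Field F]
    [CharZero F] [Algebra P F], Function.Injective (algebraMap P F) →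
    ∀ B : Subalgebra P F, B.FG → (∀ f : F, ∃ a ∈ B, ∃ b ∈ B, b ≠ 0 ∧ f = a / b) →
    (∃ r ∈ B, r ≠ 0 ∧ ∀ b ∈ B, ∃ k : ℕ, IsIntegral P (r ^ k * b)) →
    IsNoetherianRing (integralClosure P F)

/-- NAG: the ring form of block (k). -/
def T_NAG : Prop :=
  ∀ (A F : Type u) [CommRing A] [IsDomain A] [IsDiscreteValuationRing A] [Field F] [CharZero F]
    [Algebra A F], Function.Injective (algebraMap A F) → ∀ π : A, Irreducible π →
    ∀ B : Subalgebra A F, B.FG → (∀ f : F, ∃ a ∈ B, ∃ b ∈ B, b ≠ 0 ∧ f = a / b) →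
    ∀ x : Ideal B, x.IsPrime → algebraMap A B π ∈ x →
    ∀ O : Subring F, (∀ f : F, f ∈ O ↔ ∃ s : B, s ∉ x ∧ (s : F) * f ∈ B) →
      IsNoetherianRing O ∧ IsNoetherianRing (integralClosure O F) ∧ EQH O

end Pool.Agent.H92.KST
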