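import Pool.Agent.H92.KST.Basic

/-!
# Assembly of T_STAR
-/

set_option autoImplicit false
set_option linter.dupNamespace false

universe u

namespace Pool.Agent.H92.KST

theorem star_of (hWST : T_WST.{u}) (hCOP : T_COP.{u}) (hDEC : T_DEC.{u}) (hGEN : T_GEN.{u}) :
    T_STAR.{u} := by
  intro R F M _ _ _ _ _ _ _ _ S σ q hq hR y α g hα hu0 hg
  have hpp := pp_ne (F := F) S (S.n + 1)
  set u : F := 1 + algebraMap R F S.p ^ (S.n + 1) * α with hu
  have e1 : (u - 1) / algebraMap R F S.p ^ (S.n + 1) = α := by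
    rw [hu, add_sub_cancel_left, mul_div_cancel_left₀ _ hpp]
  obtain ⟨w, hw0, hw1, hw2⟩ := hWST R F S y u hu0 (fun e he hb => by rw [e1]; exact hα e he hb)
  -- the coprime elements are liftable
  have key : σ.s (w * u) g ∈ liftSub S σ y := by
    refine hDEC R F M S σ (liftSub S σ y) ?_ (w * u) g (mul_ne_zero hw0 hu0) hg hw2
    refine hGEN R F M S σ (liftSub S σ y) ?_
    intro a b c hb hbe hc hP he hb'
    exact hCOP R F M S σ q hq hR y a b c hb hbe hc hP he hb'
  refine Lift.congr (mem_liftSub.1 key) ?_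
  rw [σ.mul_left w u g hw0 hu0 hg]
  have h3 : σ.s u g - (σ.s w g + σ.s u g) = -σ.s w g := by abel
  rw [h3]
  exact neg_mem (Sm.mem_U ⟨hw0, hw1⟩ hg)

end Pool.Agent.H92.KST
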