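import Pool.Agent.H1.KST.GDC
import Pool.Agent.H10.KST.LE1
import Pool.Agent.H10.KST.NA3
import Pool.Agent.H10.KST.STARX
import Pool.Agent.H11.KST.NA1
import Pool.Agent.H2.KST.MV1
import Pool.Agent.H21.KST.GOODG
import Pool.Agent.H36.KST.CRT
import Pool.Agent.H36.KST.GEN
import Pool.Agent.H36.KST.SITX
import Pool.Agent.H36.KST.WST
import Pool.Agent.H38.KST.NAG
import Pool.Agent.H39.KST.FIN
import Pool.Agent.H41.KST.AV
import Pool.Agent.H45.KST.NA5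
import Pool.Agent.H52.KST.DVR
import Pool.Agent.H61.KST.NA4
import Pool.Agent.H63.KST.GENF
import Pool.Agent.H63.KST.LE2
import Pool.Agent.H67.KST.SYMX
import Pool.Agent.H72.KST.APPG
import Pool.Agent.H72.KST.RAD
import Pool.Agent.H74.KST.COP
import Pool.Agent.H86.KST.DEC
import Pool.Agent.H86.KST.HAR
import Pool.Agent.H94.KST.NA2
import Pool.Agent.H94.KST.POL
import Pool.Agent.H98.KST.LOCX
import Pool.Agent.H92.KST.Final
import Pool.Agent.H19.KN.All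

/-!
# Project KEW, blocks (e) and (k): all theorems, nothing assumed
-/

universe u

namespace Pool.Agent.H92.KST

theorem ok_AV : T_AV.{u} := Pool.Agent.H41.KST.pf_AV
theorem ok_RAD : T_RAD.{u} := Pool.Agent.H72.KST.pf_RAD
theorem ok_HAR : T_HAR.{u} := Pool.Agent.H86.KST.pf_HAR
theorem ok_DVR : T_DVR.{u} := Pool.Agent.H52.KST.pf_DVR
theorem ok_FIN : T_FIN.{u} := Pool.Agent.H39.KST.pf_FIN
theorem ok_CRT : T_CRT.{u} := Pool.Agent.H36.KST.pf_CRT ok_AV ok_FIN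
theorem ok_WST : T_WST.{u} := Pool.Agent.H36.KST.pf_WST ok_AV ok_RAD ok_FIN
theorem ok_POL : T_POL.{u} := Pool.Agent.H94.KST.pf_POL ok_AV ok_DVR ok_FIN
theorem ok_GDC : T_GDC.{u} := Pool.Agent.H1.KST.pf_GDC ok_AV ok_DVR ok_FIN
theorem ok_MV1 : T_MV1.{u} := Pool.Agent.H2.KST.pf_MV1 ok_RAD
theorem ok_LE1 : T_LE1.{u} := Pool.Agent.H10.KST.pf_LE1 ok_RAD ok_HAR ok_FIN ok_CRT ok_MV1
theorem ok_LE2 : T_LE2.{u} := Pool.Agent.H63.KST.pf_LE2 ok_RAD ok_FIN ok_CRT ok_WST ok_MV1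
theorem ok_COP : T_COP.{u} :=
  Pool.Agent.H74.KST.pf_COP ok_RAD ok_FIN ok_CRT ok_MV1 ok_LE1 ok_LE2
theorem ok_DEC : T_DEC.{u} := Pool.Agent.H86.KST.pf_DEC ok_FIN ok_POL
theorem ok_GEN : T_GEN.{u} := Pool.Agent.H36.KST.pf_GEN ok_FIN ok_GDC

/-- STAR -/
theorem ok_STAR : T_STAR.{u} := star_of ok_WST ok_COP ok_DEC ok_GEN

theorem ok_GENF : T_GENF.{u} := Pool.Agent.H63.KST.pf_GENF
theorem ok_LOCX : T_LOCX.{u} := Pool.Agent.H98.KST.pf_LOCX ok_GENF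
theorem ok_GOODG : T_GOODG.{u} := Pool.Agent.H21.KST.pf_GOODG ok_GENF ok_LOCX
theorem ok_APPG : T_APPG.{u} := Pool.Agent.H72.KST.pf_APPG Pool.Agent.H19.KN.ok_APX ok_GENF
theorem ok_SITX : T_SITX.{u} := Pool.Agent.H36.KST.pf_SITX ok_GENF
theorem ok_SYMX : T_SYMX.{u} := Pool.Agent.H67.KST.pf_SYMX

/-- STARX -/
theorem ok_STARX : T_STARX.{u} :=
  Pool.Agent.H10.KST.pf_STARX ok_STAR Pool.Agent.H19.KN.ok_ROOT Pool.Agent.H19.KN.ok_WA2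
    Pool.Agent.H19.KN.ok_UMEM ok_GENF ok_LOCX ok_GOODG ok_APPG ok_SITX ok_SYMX

theorem ok_NA1 : T_NA1.{u} := Pool.Agent.H11.KST.pf_NA1
theorem ok_NA2 : T_NA2.{u} := Pool.Agent.H94.KST.pf_NA2
theorem ok_NA3 : T_NA3.{u} := Pool.Agent.H10.KST.pf_NA3
theorem ok_NA4 : T_NA4.{u} := Pool.Agent.H61.KST.pf_NA4
theorem ok_NA5 : T_NA5.{u} := Pool.Agent.H45.KST.pf_NA5

/-- NAG -/
theorem ok_NAG : T_NAG.{u} := Pool.Agent.H38.KST.pf_NAG ok_NA1 ok_NA2 ok_NA3 ok_NA4 ok_NA5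

end Pool.Agent.H92.KST
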