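import Pool.Agent.H15.KEW.G5
import Pool.Agent.H14.KEW.Thick
import Pool.Agent.H84.KEW.Abs
import Pool.Agent.H17.KW.ResMap

/-!
# Project KEW: small symbols of functions satisfy the conditions
-/

set_option autoImplicit false
set_option linter.dupNamespace false

universe u

namespace Pool.Agent.H92.KST

open AlgebraicGeometry CategoryTheory TopologicalSpace Opposite Pool.Agent.H19.KN IsLocalRing
open Pool.Agent.H62.MK Pool.Agent.H84.KEW Pool.Agent.H15.KEW
open Pool.Agent.H17.KW (kap Pts entry column dFam D dD KSh KPre topSh topFam topVal evPt Gersten AbSh)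
open Pool.Agent.H14.KEW (symGerm exists_fact_thick)
open Pool.Agent.H12.KG (Sp GenSp kA stA rho)

variable {X : Scheme.{u}} {A : Type u} [CommRing A]

/-- Away from the special fibre there is no condition. -/
theorem mem_PP_of_not_sp (f : X ⟶ Spec (CommRingCat.of A)) (π : A) (q n d s : ℕ) {x y : X}
    (hx : ¬ Sp f π x) (hy : y ⤳ x) (c : Π₀ v : Pts X d s, MilnorK (kap X v.1) s) :
    c ∈ PP f π q n d s y :=
  fun _ _ hg => absurd (Sp.mono hy hg.2.1) hx

/-- `q`-fold families satisfy the conditions. -/
theorem smul_mem_PP (f : X ⟶ Spec (CommRingCat.of A)) (π : A) (q n d s : ℕ) (y : X)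
    (c : Π₀ v : Pts X d s, MilnorK (kap X v.1) s) : q • c ∈ PP f π q n d s y := by
  intro v h hg
  have := smul_mem_US f π q n s h (c v)
  rwa [← DFinsupp.smul_apply] at this

/-- The family of a symbol of functions with an entry congruent to one modulo `π ^ n` satisfies
the conditions. -/
theorem sym_mem_PP [IsNoetherian X] (f : X ⟶ Spec (CommRingCat.of A)) (π : A) (q n d : ℕ)
    {V : X.Opens} {x y : X} (hV : x ∈ V) (hy : y ⤳ x) (a : Fin d → (Γ(X, V))ˣ) (j : Fin d)
    (c : X.presheaf.stalk x)
    (hc : X.presheaf.germ V x hV (a j : Γ(X, V)) = 1 + stA f x π ^ n * c) :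
    topFam X d V (sym a) ∈ PP f π q n d d y := by
  intro v h hg
  have hvx : v.1 ⤳ x := h.trans hy
  have hv : v.1 ∈ V := hvx.mem_open V.2 hV
  rw [Pool.Agent.H17.KW.topFam_apply, Pool.Agent.H17.KW.topVal_of_mem X d V v.1 hv, map_sym]
  refine (ok_UMEM (X.residueField v.1) (BB h) (kA f v.1 π) q n).2.2.2.1 d _ j ?_
  refine ⟨rho h (X.presheaf.stalkSpecializes hy c), ?_, ?_⟩
  · show IsIntegral (rho h).range (rho h (X.presheaf.stalkSpecializes hy c))
    exact isIntegral_algebraMap (R := (rho h).range) (A := X.residueField v.1)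
      (x := ⟨_, X.presheaf.stalkSpecializes hy c, rfl⟩)
  · have e1 : X.presheaf.germ V v.1 hv (a j : Γ(X, V)) =
        X.presheaf.stalkSpecializes hvx (X.presheaf.germ V x hV (a j : Γ(X, V))) := by
      have := X.presheaf.germ_stalkSpecializes (U := V) hV hvx
      rw [← this]; rfl
    have e2 : rho hvx (X.presheaf.germ V x hV (a j : Γ(X, V))) =
        1 + kA f v.1 π ^ n * rho h (X.presheaf.stalkSpecializes hy c) := by
      rw [hc, map_add, map_one, map_mul, map_pow, rho_stA, rho_comp h hy]
    rw [← e2, rho_apply, ← e1]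
    rfl

/-- The value of the map from the Milnor K-sheaf on a section of the presheaf. -/
theorem topSh_app [IsNoetherian X] (d : ℕ) (V : Opens X.toTopCat) (z : MilnorK (X.presheaf.obj (op V)) d) :
    (show (E (pt X d d) (KK X d d)).sec V from (topSh X d).hom.app (op V)
      ((toSheafify (Opens.grothendieckTopology X.toTopCat) (KPre X d)).app (op V) z)).1 =
      topFam X d V z := by
  have h := toSheafify_sheafifyLift (Opens.grothendieckTopology X.toTopCat)
    (Pool.Agent.H17.KW.topPre X d) (D X d d).2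
  have h1 := congrArg (fun r : KPre X d ⟶ (D X d d).obj => r.app (op V) z) h
  exact congrArg (fun r : (E (pt X d d) (KK X d d)).sec V => r.1) h1

open Pool.Agent.H17.KW in
/-- KILLX: the map to the quotient complex factors through the K-sheaf of the thickening. -/
theorem exists_phi [IsNoetherian X] [IsLocalRing A] (f : X ⟶ Spec (CommRingCat.of A)) {π : A}
    (hπ : maximalIdeal A = Ideal.span {π}) {q n e : ℕ} (hn : n ≠ 0) (h : Gersten X e) :
    ∃ φ : Fsh f q (e + 1) n ⟶ TS (pt X (e + 1)) (KK X (e + 1)) (dFam X (e + 1))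
        (fun s => PP f π q n (e + 1) s) (e + 1),
      redSh (thickι f n) q (e + 1) ≫ φ = topSh X (e + 1) ≫
        qS (pt X (e + 1)) (KK X (e + 1)) (dFam X (e + 1)) (fun s => PP f π q n (e + 1) s)
          (e + 1) := by
  have key : ∀ (x : X) (V : Opens X.toTopCat) (hV : x ∈ V)
      (z : MilnorK (X.presheaf.obj (op V)) (e + 1)),
      (∀ y, y ⤳ x → topFam X (e + 1) V z ∈ PP f π q n (e + 1) (e + 1) y) →
      TopCat.Presheaf.germ (C := AddCommGrpCat.{u}) (X := X.toTopCat)
        (TS (pt X (e + 1)) (KK X (e + 1)) (dFam X (e + 1))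
          (fun s => PP f π q n (e + 1) s) (e + 1)).obj V x hV
        ((topSh X (e + 1) ≫ qS (pt X (e + 1)) (KK X (e + 1)) (dFam X (e + 1))
          (fun s => PP f π q n (e + 1) s) (e + 1)).hom.app (op V)
          ((toSheafify (Opens.grothendieckTopology X.toTopCat) (KPre X (e + 1))).app (op V) z)) =
        0 := by
    intro x V hV z hz
    refine germ_qS_eq_zero (pt X (e + 1)) (KK X (e + 1)) (dFam X (e + 1))
      (isLocalHom_dFam X (e + 1)) (fun s => PP f π q n (e + 1) s) h.w0
      (fun s g => fin_PP f π q n (e + 1) s g) _ hV ?_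
    intro y hy
    have h2 : gen (pt X (e + 1) (e + 1)) (KK X (e + 1) (e + 1)) y (topFam X (e + 1) V z) ∈
        PP f π q n (e + 1) (e + 1) y :=
      (gen_mem_US f π q n (e + 1) (e + 1) _ y).2 fun v hv hg => hz y hy v hv hg
    exact (congrArg (fun w => gen (pt X (e + 1) (e + 1)) (KK X (e + 1) (e + 1)) y w ∈
      PP f π q n (e + 1) (e + 1) y) (topSh_app (e + 1) V z)).mpr h2
  refine exists_fact_thick f n hπ hn q _ ?_ ?_ ?_
  · intro x hx V hV a
    exact key x V hV _ fun y hy => mem_PP_of_not_sp f π q n _ _ hx hy _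
  · intro x V hV a
    have h1 := key x V hV (q • sym a) fun y hy => by
      rw [map_nsmul]
      exact smul_mem_PP f π q n _ _ y _
    let F : MilnorK (X.presheaf.obj (op V)) (e + 1) →+ _ :=
      (TopCat.Presheaf.germ (C := AddCommGrpCat.{u}) (X := X.toTopCat)
        (TS (pt X (e + 1)) (KK X (e + 1)) (dFam X (e + 1))
          (fun s => PP f π q n (e + 1) s) (e + 1)).obj V x hV).hom.comp
        (((topSh X (e + 1) ≫ qS (pt X (e + 1)) (KK X (e + 1)) (dFam X (e + 1))
          (fun s => PP f π q n (e + 1) s) (e + 1)).hom.app (op V)).hom.comp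
          ((toSheafify (Opens.grothendieckTopology X.toTopCat) (KPre X (e + 1))).app (op V)).hom)
    exact (map_nsmul F q (sym a)).symm.trans h1
  · intro x hx V hV a j c hc
    exact key x V hV _ fun y hy => sym_mem_PP f π q n (e + 1) hV hy a j c hc

end Pool.Agent.H92.KST
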