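import Pool.Agent.H92.KST.TargetsX
import Pool.Agent.H15.KEW.Iface
import Pool.Agent.H15.KEW.Tool

/-!
# Project KEW: `S_NAG` from its ring form
-/

set_option autoImplicit false
set_option linter.dupNamespace false

universe u

namespace Pool.Agent.H92.KST

open AlgebraicGeometry CategoryTheory Pool.Agent.H12.KG Pool.Agent.H19.KN Pool.Agent.H15.KEW
open IsLocalRing

theorem deg0_surj {A S : Type u} [CommRing A] [CommRing S] [Algebra A S]
    (𝒮 : ℕ → Submodule A S) [GradedAlgebra 𝒮] (h : Algebra.adjoin A (𝒮 1 : Set S) = ⊤) :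
    Function.Surjective (algebraMap A (𝒮 0)) := by
  have key : ∀ s ∈ Algebra.adjoin A (𝒮 1 : Set S),
      GradedRing.projZeroRingHom 𝒮 s ∈ (algebraMap A S).range := by
    intro s hs
    induction hs using Algebra.adjoin_induction with
    | mem x hx =>
      have : GradedRing.projZeroRingHom 𝒮 x = 0 := by
        rw [GradedRing.projZeroRingHom_apply]
        exact DirectSum.decompose_of_mem_ne 𝒮 hx (by norm_num)
      rw [this]
      exact zero_mem _
    | algebraMap r =>
      have h1 : algebraMap A S r ∈ 𝒮 0 := SetLike.algebraMap_mem_graded 𝒮 r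
      have : GradedRing.projZeroRingHom 𝒮 (algebraMap A S r) = algebraMap A S r := by
        rw [GradedRing.projZeroRingHom_apply]
        exact DirectSum.decompose_of_mem_same 𝒮 h1
      rw [this]
      exact ⟨r, rfl⟩
    | add x y _ _ hx hy => rw [map_add]; exact add_mem hx hy
    | mul x y _ _ hx hy => rw [map_mul]; exact mul_mem hx hy
  intro z
  obtain ⟨a, ha⟩ := key z (by rw [h]; trivial)
  refine ⟨a, Subtype.ext ?_⟩
  have h1 : GradedRing.projZeroRingHom 𝒮 (z : S) = z := by
    rw [GradedRing.projZeroRingHom_apply]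
    exact DirectSum.decompose_of_mem_same 𝒮 z.2
  rw [h1] at ha
  exact ha

theorem lft_projStr {A S : Type u} [CommRing A] [CommRing S] [Algebra A S]
    (𝒮 : ℕ → Submodule A S) [GradedAlgebra 𝒮] (hfg : (𝒮 1).FG)
    (h : Algebra.adjoin A (𝒮 1 : Set S) = ⊤) : LocallyOfFiniteType (projStr 𝒮) := by
  have h1 : Algebra.FiniteType A S := by
    obtain ⟨t, ht⟩ := hfg
    refine ⟨⟨t, ?_⟩⟩
    rw [← h, ← ht]
    exact (Algebra.adjoin_span (R := A)).symm
  have h0 : IsScalarTower A (𝒮 0) S := ⟨fun a s t => smul_mul_assoc a (s : S) t⟩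
  have h2 : Algebra.FiniteType (𝒮 0) S := Algebra.FiniteType.of_restrictScalars_finiteType A (𝒮 0) S
  have h3 : LocallyOfFiniteType (Proj.toSpecZero 𝒮) := inferInstance
  have h4 : LocallyOfFiniteType (Spec.map (CommRingCat.ofHom (algebraMap A (𝒮 0)))) := by
    rw [HasRingHomProperty.Spec_iff (P := @LocallyOfFiniteType)]
    exact RingHom.FiniteType.of_surjective _ (deg0_surj 𝒮 h)
  exact locallyOfFiniteType_comp _ _

/-- An affine chart around the point `x`. -/
theorem chart {A : Type u} [CommRing A] {X : Scheme.{u}} (f : X ⟶ Spec (CommRingCat.of A))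
    [LocallyOfFiniteType f] {w x : X} (h : w ⤳ x) :
    ∃ (C : Type u) (_ : CommRing C) (φ : A →+* C) (ψ : C →+* X.presheaf.stalk x),
      φ.FiniteType ∧ (∀ a, ψ (φ a) = stA f x a) ∧
      (∀ s : X.presheaf.stalk x, ∃ c t : C, IsUnit (ψ t) ∧ ψ t * s = ψ c) ∧
      ∀ s : X.residueField w, ∃ c t : C, rho h (ψ t) ≠ 0 ∧ rho h (ψ t) * s = rho h (ψ c) := by
  obtain ⟨U, hU, hxU⟩ : ∃ U : X.Opens, IsAffineOpen U ∧ x ∈ U := by
    obtain ⟨_, ⟨U, hU, rfl⟩, hx, -⟩ :=
      X.isBasis_affineOpens.exists_subset_of_mem_open (a := x) (u := Set.univ) trivial isOpen_univ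
    exact ⟨U, hU, hx⟩
  have hwU : w ∈ U := h.mem_open U.2 hxU
  let g : (CommRingCat.of A) ⟶ Γ(X, U) :=
    (Scheme.ΓSpecIso (CommRingCat.of A)).inv ≫ f.appLE ⊤ U le_top
  have loc : ∀ (z : X) (hz : z ∈ U) (s : X.presheaf.stalk z), ∃ c t : Γ(X, U),
      IsUnit (X.presheaf.germ U z hz t) ∧ X.presheaf.germ U z hz t * s = X.presheaf.germ U z hz c := by
    intro z hz s
    let _ : Algebra Γ(X, U) (X.presheaf.stalk z) := X.presheaf.algebra_section_stalk ⟨z, hz⟩
    have := hU.isLocalization_stalk ⟨z, hz⟩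
    obtain ⟨⟨c, t⟩, hct⟩ := IsLocalization.surj (hU.primeIdealOf ⟨z, hz⟩).asIdeal.primeCompl s
    refine ⟨c, t, ?_, ?_⟩
    · exact IsLocalization.map_units (X.presheaf.stalk z) t
    · rw [mul_comm]; exact hct
  refine ⟨Γ(X, U), inferInstance, g.hom, (X.presheaf.germ U x hxU).hom, ?_, ?_, ?_, ?_⟩
  · have h1 : (f.appLE ⊤ U le_top).hom.FiniteType :=
      f.finiteType_appLE (isAffineOpen_top _) hU le_top
    have h2 : (Scheme.ΓSpecIso (CommRingCat.of A)).inv.hom.FiniteType :=
      RingHom.FiniteType.of_surjective _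
        (ConcreteCategory.bijective_of_isIso (Scheme.ΓSpecIso (CommRingCat.of A)).inv).2
    exact RingHom.FiniteType.comp h1 h2
  · intro a
    have : g ≫ X.presheaf.germ U x hxU = (Scheme.ΓSpecIso (CommRingCat.of A)).inv ≫ f.appTop ≫
        X.presheaf.germ ⊤ x trivial := by
      simp only [g, Category.assoc]
      congr 1
      rw [Scheme.Hom.appLE, Category.assoc]
      congr 1
      exact X.presheaf.germ_res _ _ _
    exact congrArg (fun k : CommRingCat.of A ⟶ X.presheaf.stalk x => k a) this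
  · exact loc x hxU
  · intro s
    obtain ⟨s', rfl⟩ := X.residue_surjective w s
    obtain ⟨c, t, h1, h2⟩ := loc w hwU s'
    have hr : ∀ c : Γ(X, U), rho h (X.presheaf.germ U x hxU c) =
        X.residue w (X.presheaf.germ U w hwU c) := by
      intro c
      rw [rho_apply]
      congr 1
      exact congrArg (fun k : Γ(X, U) ⟶ X.presheaf.stalk w => k c)
        (X.presheaf.germ_stalkSpecializes (U := U) (y := x) hxU h)
    refine ⟨c, t, ?_, ?_⟩
    · erw [hr]
      exact (h1.map (X.residue w).hom).ne_zero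
    · erw [hr, hr, ← h2, map_mul]

/-- `S_NAG` from the ring form. -/
theorem snag_of (hNAG : T_NAG.{u}) : S_NAG.{u} := by
  intro A S _ _ _ _ _ _ 𝒮 _ hfg hadj X i hi π hπ w x hw hx h
  have hlft : LocallyOfFiniteType (projStr 𝒮) := lft_projStr 𝒮 hfg hadj
  have hlf : LocallyOfFiniteType (i ≫ projStr 𝒮) := locallyOfFiniteType_comp _ _
  obtain ⟨C, _, φ, ψ, hφ, hst, hloc, hlocw⟩ := chart (i ≫ projStr 𝒮) h
  generalize hf : i ≫ projStr 𝒮 = f at *
  let _ : Algebra A (X.residueField w) := (kA f w).toAlgebra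
  have hk : ∀ a : A, algebraMap A (X.residueField w) a = kA f w a := fun _ => rfl
  have hπw : kA f w π ≠ 0 := fun h0 => hw ((sp_iff' f π w).2 h0)
  have hinj : Function.Injective (algebraMap A (X.residueField w)) := by
    rw [injective_iff_map_eq_zero]
    intro a ha
    by_contra ha0
    obtain ⟨n, u, hu⟩ := IsDiscreteValuationRing.eq_unit_mul_pow_irreducible ha0 hπ
    rw [hu, map_mul, map_pow] at ha
    have h1 : algebraMap A (X.residueField w) (u : A) ≠ 0 := (u.isUnit.map _).ne_zero
    rcases mul_eq_zero.1 ha with h2 | h2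
    · exact h1 h2
    · exact pow_ne_zero n hπw h2
  have hchar : CharZero (X.residueField w) := charZero_of_injective_algebraMap hinj
  -- the subalgebra
  let _ : Algebra A C := φ.toAlgebra
  have hft : Algebra.FiniteType A C := hφ
  let θ : C →ₐ[A] X.residueField w :=
    { (rho h).comp ψ with
      commutes' := fun a => by
        show rho h (ψ (φ a)) = kA f w a
        rw [hst, rho_stA] }
  have hθ : ∀ c, θ c = rho h (ψ c) := fun _ => rfl
  have hB : θ.range.FG := by
    have := (Algebra.FiniteType.out (R := A) (A := C)).map θ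
    rwa [Algebra.map_top] at this
  -- the local ring
  let O : Subring (X.residueField w) := (rho h).range
  have hBO : ∀ b ∈ θ.range, b ∈ O := by
    rintro _ ⟨c, rfl⟩
    exact ⟨ψ c, rfl⟩
  let ρ : X.presheaf.stalk x →+* O := (rho h).rangeRestrict
  have hρs : Function.Surjective ρ := (rho h).rangeRestrict_surjective
  have hlocO : IsLocalRing O := IsLocalRing.of_surjective' ρ hρs
  have hρu : ∀ s : X.presheaf.stalk x, IsUnit (ρ s) → IsUnit s := by
    have : IsLocalHom ρ := IsLocalHom.of_surjective ρ hρs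
    intro s hs
    exact isUnit_of_map_unit ρ s hs
  let j : θ.range →+* O :=
    { toFun := fun b => ⟨b, hBO b b.2⟩
      map_one' := rfl
      map_mul' := fun _ _ => rfl
      map_zero' := rfl
      map_add' := fun _ _ => rfl }
  let P : Ideal θ.range := (maximalIdeal O).comap j
  have hP : ∀ b : θ.range, b ∉ P ↔ IsUnit (j b) := by
    intro b
    show j b ∉ maximalIdeal O ↔ _
    rw [mem_maximalIdeal, mem_nonunits_iff, not_not]
  have hO : ∀ g : X.residueField w, g ∈ O ↔
      ∃ s : θ.range, s ∉ P ∧ (s : X.residueField w) * g ∈ θ.range := by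
    intro g
    constructor
    · rintro ⟨s, rfl⟩
      obtain ⟨c, t, ht, hct⟩ := hloc s
      refine ⟨⟨θ t, t, rfl⟩, ?_, ?_⟩
      · rw [hP]
        have : j ⟨θ t, t, rfl⟩ = ρ (ψ t) := rfl
        rw [this]
        exact ht.map ρ
      · exact ⟨c, by
          show rho h (ψ c) = rho h (ψ t) * rho h s
          rw [← hct, map_mul]⟩
    · rintro ⟨s, hs, hsg⟩
      rw [hP] at hs
      obtain ⟨v, hv⟩ := hs.exists_left_inv
      have h1 : (v : X.residueField w) * (s : X.residueField w) = 1 := congrArg Subtype.val hv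
      have h2 : g = (v : X.residueField w) * ((s : X.residueField w) * g) := by
        rw [← mul_assoc, h1, one_mul]
      rw [h2]
      exact mul_mem v.2 (hBO _ hsg)
  have hfr : ∀ g : X.residueField w, ∃ a ∈ θ.range, ∃ b ∈ θ.range, b ≠ 0 ∧ g = a / b := by
    intro g
    obtain ⟨c, t, h1, h2⟩ := hlocw g
    have h3 : g = rho h (ψ c) / rho h (ψ t) := by
      rw [eq_div_iff h1, mul_comm]; exact h2
    exact ⟨θ c, ⟨c, rfl⟩, θ t, ⟨t, rfl⟩, h1, h3⟩
  have hπP : algebraMap A θ.range π ∈ P := by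
    by_contra hn
    rw [hP] at hn
    have h1 : j (algebraMap A θ.range π) = ρ (stA f x π) := by
      apply Subtype.ext
      show kA f w π = rho h (stA f x π)
      rw [rho_stA]
    rw [h1] at hn
    exact hx (hρu _ hn)
  obtain ⟨-, hR, hE⟩ := hNAG A (X.residueField w) hinj π hπ θ.range hB hfr P
    (Ideal.comap_isPrime j _) hπP O hO
  refine ⟨hR, ?_⟩
  intro q q' hq hq' he
  have hq2 : Ideal.IsPrime (show Ideal (integralClosure O (X.residueField w)) from q) := hq
  have hq2' : Ideal.IsPrime (show Ideal (integralClosure O (X.residueField w)) from q') := hq'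
  refine hE q q' hq2 hq2' ?_
  ext z
  obtain ⟨s, hs⟩ := hρs z
  have h1 : s ∈ q.comap (toBB h) ↔ s ∈ q'.comap (toBB h) := by rw [he]
  rw [← hs]
  exact h1

end Pool.Agent.H92.KST
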