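import Pool.Agent.H92.KST.All
import Pool.Agent.H92.KST.NagX

/-!
# Project KEW, block (k): `S_NAG`, nothing assumed
-/

universe u

namespace Pool.Agent.H92.KST

/-- `S_NAG` -/
theorem ok_SNAG : Pool.Agent.H15.KEW.S_NAG.{u} := snag_of ok_NAG

end Pool.Agent.H92.KST
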