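import Mathlib

/-!
# Project KEW, block (e): lifting of small symbols (STAR), ring level

`R` is a noetherian integrally closed domain with fraction field `F`, `p` an element of the
Jacobson radical.  For a set `T` of primes, `InL T f` says that `f` lies in the localisation `R_T`
(denominators outside all primes of `T`).  `Sit` is the situation: a family of finite, pairwise
disjoint sets `T y` of primes of height two containing `p` (the primes above the points `y` of
codimension one of the special fibre).  `Symb` is a bimultiplicative Steinberg symbol.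
-/

set_option autoImplicit false
set_option linter.dupNamespace false

universe u

namespace Pool.Agent.H92.KST

section
variable {R F : Type u} [CommRing R] [Field F] [Algebra R F]

/-- `f` lies in `R_T` : a fraction with a denominator outside all primes of `T` -/
def InL (T : Set (Ideal R)) (f : F) : Prop :=
  ∃ s r : R, s ≠ 0 ∧ (∀ q ∈ T, s ∉ q) ∧ algebraMap R F s * f = algebraMap R F r

/-- `f` is a unit of `R_P` -/
def UnA (P : Ideal R) (f : F) : Prop := f ≠ 0 ∧ InL {P} f ∧ InL {P} f⁻¹

/-- `d` lies in `J ^ k R_T`, where `J` is the intersection of the primes of `T` -/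
def InJ (T : Set (Ideal R)) (k : ℕ) (d : F) : Prop :=
  ∃ s r : R, s ≠ 0 ∧ (∀ q ∈ T, s ∉ q) ∧ r ∈ (sInf T) ^ k ∧
    algebraMap R F s * d = algebraMap R F r

end

/-- `P` is contained in one of the primes of `T` -/
def Below {R : Type u} [CommRing R] (T : Set (Ideal R)) (P : Ideal R) : Prop := ∃ q ∈ T, P ≤ q

/-- the situation -/
structure Sit (R : Type u) [CommRing R] where
  /-- the uniformizer of the base -/
  p : R
  /-- the exponent (the groups below use `n + 1`) -/
  n : ℕ
  /-- the points -/
  Y : Type u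
  /-- the primes above a point -/
  T : Y → Set (Ideal R)
  p0 : p ≠ 0
  pJ : ∀ x, IsUnit (1 + p * x)
  n1 : 1 ≤ n
  fin : ∀ y, (T y).Finite
  ne : ∀ y, (T y).Nonempty
  pr : ∀ y, ∀ q ∈ T y, q.IsPrime
  ht : ∀ y, ∀ q ∈ T y, q.height = 2
  mem : ∀ y, ∀ q ∈ T y, p ∈ q
  dj : ∀ y y', y ≠ y' → Disjoint (T y) (T y')

/-- the vertical primes: height one, containing `p` -/
def Sit.Sig {R : Type u} [CommRing R] (S : Sit R) : Set (Ideal R) :=
  {e | e.IsPrime ∧ e.height = 1 ∧ S.p ∈ e}

/-- the horizontal primes: height one, not containing `p` -/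
def Sit.Hor {R : Type u} [CommRing R] (S : Sit R) : Set (Ideal R) :=
  {e | e.IsPrime ∧ e.height = 1 ∧ S.p ∉ e}

/-- a bimultiplicative symbol with the Steinberg relation -/
structure Symb (F M : Type u) [Field F] [AddCommGroup M] where
  /-- the symbol (junk values if an entry is zero) -/
  s : F → F → M
  mul_left : ∀ a b c, a ≠ 0 → b ≠ 0 → c ≠ 0 → s (a * b) c = s a c + s b c
  mul_right : ∀ a b c, a ≠ 0 → b ≠ 0 → c ≠ 0 → s a (b * c) = s a b + s a c
  st : ∀ a b, a ≠ 0 → b ≠ 0 → a + b = 1 → s a b = 0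

section
variable {R F M : Type u} [CommRing R] [Field F] [Algebra R F] [AddCommGroup M]

/-- the small symbols at `T`: generated by `{1 + p ^ (n + 1) a, g}`, `a` in `R_T` -/
def U (S : Sit R) (σ : Symb F M) (T : Set (Ideal R)) : AddSubgroup M :=
  AddSubgroup.closure {m | ∃ a g : F, InL T a ∧ g ≠ 0 ∧
    1 + algebraMap R F S.p ^ (S.n + 1) * a ≠ 0 ∧
    m = σ.s (1 + algebraMap R F S.p ^ (S.n + 1) * a) g}

/-- `c` at the point `y` lifts to a small symbol at the vertical primes which is small at all
other points -/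
def Lift (S : Sit R) (σ : Symb F M) (y : S.Y) (c : M) : Prop :=
  ∃ a ∈ U S σ S.Sig, a - c ∈ U S σ (S.T y) ∧ ∀ y', y' ≠ y → a ∈ U S σ (S.T y')

end

/-- `q`-th roots: exponent `n` can be replaced by `n + 1` modulo `q`-th powers -/
def Root {R : Type u} (F : Type u) [CommRing R] [Field F] [Algebra R F] (S : Sit R) (q : ℕ) :
    Prop :=
  ∀ (y : S.Y) (a : F), InL (S.T y) a → ∃ b a' : F, b ≠ 0 ∧ InL (S.T y) a' ∧
    1 + algebraMap R F S.p ^ S.n * a = b ^ q * (1 + algebraMap R F S.p ^ (S.n + 1) * a')

/-- THE FINAL STATEMENT of block (e) for an arbitrary symbol -/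
def T_STAR : Prop :=
  ∀ (R F M : Type u) [CommRing R] [IsDomain R] [IsNoetherianRing R] [IsIntegrallyClosed R]
    [Field F] [Algebra R F] [IsFractionRing R F] [AddCommGroup M]
    (S : Sit R) (σ : Symb F M) (q : ℕ), (∀ m : M, q • m = 0) → Root F S q →
    ∀ (y : S.Y) (α g : F), (∀ e ∈ S.Sig, Below (S.T y) e → InL {e} α) →
      1 + algebraMap R F S.p ^ (S.n + 1) * α ≠ 0 → g ≠ 0 →
      Lift S σ y (σ.s (1 + algebraMap R F S.p ^ (S.n + 1) * α) g)

end Pool.Agent.H92.KST
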