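import Pool.Agent.H92.KST.KillX
import Pool.Agent.H15.KEW.Asm2

/-!
# Project KEW: KILLX
-/

universe u

namespace Pool.Agent.H92.KST

/-- KILLX -/
theorem killx : Pool.Agent.H15.KEW.T_KILLX.{u} := by
  intro A _ _ _ X _ f π hπ q n e hn h
  exact exists_phi f hπ.maximalIdeal_eq hn h

end Pool.Agent.H92.KST
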