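import Pool.Agent.H92.KST.Defs

/-!
# Targets of board kst_modules (project KEW, block (e), STAR)
-/

set_option autoImplicit false
set_option linter.dupNamespace false

universe u

namespace Pool.Agent.H92.KST

/-- AV: Kaplansky, Theorem 124: avoiding finitely many primes inside a coset `x + I` -/
def T_AV : Prop :=
  ∀ (R : Type u) [CommRing R] (Ps : Set (Ideal R)), Ps.Finite → (∀ P ∈ Ps, P.IsPrime) →
    ∀ (x : R) (I : Ideal R), (∀ P ∈ Ps, ¬ I ≤ P) → ∃ c ∈ I, ∀ P ∈ Ps, x + c ∉ P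

/-- RAD: near a finite set `T` of primes a power of `Z` lies in `I` as soon as `Z` lies in all the
minimal primes of `I` below `T` -/
def T_RAD : Prop :=
  ∀ (R : Type u) [CommRing R] [IsNoetherianRing R] (T : Set (Ideal R)), T.Finite → T.Nonempty →
    (∀ q ∈ T, q.IsPrime) → ∀ (I Z : Ideal R), (∀ P ∈ I.minimalPrimes, Below T P → Z ≤ P) →
      ∃ (k : ℕ) (s : R), s ≠ 0 ∧ (∀ q ∈ T, s ∉ q) ∧ ∀ z ∈ Z ^ k, s * z ∈ I

/-- HAR: an element which is integral at all primes of height one below `T` is in `R_T` -/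
def T_HAR : Prop :=
  ∀ (R F : Type u) [CommRing R] [IsDomain R] [IsNoetherianRing R] [IsIntegrallyClosed R]
    [Field F] [Algebra R F] [IsFractionRing R F] (T : Set (Ideal R)), T.Finite → T.Nonempty →
    (∀ q ∈ T, q.IsPrime) → ∀ f : F,
      (∀ P : Ideal R, P.IsPrime → P.height = 1 → Below T P → InL {P} f) → InL T f

/-- DVR: uniformizers at primes of height one -/
def T_DVR : Prop :=
  ∀ (R F : Type u) [CommRing R] [IsDomain R] [IsNoetherianRing R] [IsIntegrallyClosed R]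
    [Field F] [Algebra R F] [IsFractionRing R F] (P : Ideal R), P.IsPrime → P.height = 1 →
    ∃ w ∈ P, w ≠ 0 ∧ (∀ x ∈ P, InL {P} (algebraMap R F x / algebraMap R F w)) ∧
      ∀ f : F, f ≠ 0 → ∃ k : ℤ, UnA P (f * (algebraMap R F w) ^ k)

/-- FIN: finiteness -/
def T_FIN : Prop :=
  ∀ (R F : Type u) [CommRing R] [IsDomain R] [IsNoetherianRing R]
    [Field F] [Algebra R F] [IsFractionRing R F],
    (∀ b : R, b ≠ 0 → {P : Ideal R | P.IsPrime ∧ P.height = 1 ∧ b ∈ P}.Finite) ∧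
    (∀ f : F, f ≠ 0 → {P : Ideal R | P.IsPrime ∧ P.height = 1 ∧ ¬ UnA P f}.Finite) ∧
    ∀ S : Sit R, S.Sig.Finite ∧
      (∀ b : R, b ≠ 0 → (∀ e ∈ S.Sig, b ∉ e) → {y | ∃ q ∈ S.T y, b ∈ q}.Finite) ∧
      (∀ P ∈ S.Hor, {y | ∃ q ∈ S.T y, P ≤ q}.Finite)

/-- CRT: approximation at finitely many points by elements integral at all vertical primes -/
def T_CRT : Prop :=
  ∀ (R F : Type u) [CommRing R] [IsDomain R] [IsNoetherianRing R]
    [Field F] [Algebra R F] [IsFractionRing R F] (S : Sit R) (E : Set S.Y), E.Finite →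
    ∀ (r : S.Y → F), (∀ y ∈ E, InL (S.T y) (r y)) → ∀ k : ℕ,
      ∃ ρ : F, ρ ≠ 0 ∧ InL ({q | ∃ y ∈ E, q ∈ S.T y} ∪ S.Sig) ρ ∧
        ∀ y ∈ E, InJ (S.T y) k (ρ - r y)

/-- WST: an element small at the vertical primes below `y` becomes small at all vertical primes
after multiplication by an element small at `y` -/
def T_WST : Prop :=
  ∀ (R F : Type u) [CommRing R] [IsDomain R] [IsNoetherianRing R] [IsIntegrallyClosed R]
    [Field F] [Algebra R F] [IsFractionRing R F] (S : Sit R) (y : S.Y) (u : F), u ≠ 0 →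
    (∀ e ∈ S.Sig, Below (S.T y) e → InL {e} ((u - 1) / algebraMap R F S.p ^ (S.n + 1))) →
    ∃ w : F, w ≠ 0 ∧ InL (S.T y) ((w - 1) / algebraMap R F S.p ^ (S.n + 1)) ∧
      InL S.Sig ((w * u - 1) / algebraMap R F S.p ^ (S.n + 1))

/-- POL: an element with a single simple pole, at the horizontal prime `P` -/
def T_POL : Prop :=
  ∀ (R F : Type u) [CommRing R] [IsDomain R] [IsNoetherianRing R] [IsIntegrallyClosed R]
    [Field F] [Algebra R F] [IsFractionRing R F] (S : Sit R) (P : Ideal R), P ∈ S.Hor →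
    ∀ B : Set (Ideal R), B.Finite → B ⊆ S.Hor → P ∉ B →
    ∃ α : F, α ≠ 0 ∧ 1 + algebraMap R F S.p ^ (S.n + 1) * α ≠ 0 ∧ InL S.Sig α ∧
      (∀ f : F, f ≠ 0 → ∃ k : ℤ, UnA P (f * α ^ k)) ∧
      UnA P ((1 + algebraMap R F S.p ^ (S.n + 1) * α) / α) ∧
      (∀ Q ∈ S.Hor, Q ≠ P → InL {Q} α) ∧
      ∀ Q ∈ B, UnA Q α ∧ UnA Q (1 + algebraMap R F S.p ^ (S.n + 1) * α)

/-- GDC: a multiplicative property of all good ring elements holds for all `g` which are units at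
the primes of `B` -/
def T_GDC : Prop :=
  ∀ (R F : Type u) [CommRing R] [IsDomain R] [IsNoetherianRing R] [IsIntegrallyClosed R]
    [Field F] [Algebra R F] [IsFractionRing R F] (S : Sit R) (B : Set (Ideal R)), B.Finite →
    B ⊆ S.Hor → ∀ (Pr : F → Prop),
    (∀ x y : F, x ≠ 0 → y ≠ 0 → Pr x → Pr y → Pr (x * y)) → (∀ x : F, x ≠ 0 → Pr x → Pr x⁻¹) →
    (∀ x : R, x ≠ 0 → (∀ P ∈ B, x ∉ P) →
      (∀ e ∈ S.Sig, InL {e} (algebraMap R F S.p / algebraMap R F x)) → Pr (algebraMap R F x)) →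
    ∀ g : F, g ≠ 0 → (∀ P ∈ B, UnA P g) → Pr g

/-- MV1: first move -/
def T_MV1 : Prop :=
  ∀ (R F M : Type u) [CommRing R] [IsDomain R] [IsNoetherianRing R] [IsIntegrallyClosed R]
    [Field F] [Algebra R F] [IsFractionRing R F] [AddCommGroup M] (S : Sit R) (σ : Symb F M)
    (y : S.Y) (b : R), b ≠ 0 → (∀ e ∈ S.Sig, Below (S.T y) e → b ∉ e) →
    ∃ k : ℕ, ∀ (a : R) (f : F), f ≠ 0 → InJ (S.T y) k (f - 1) →
      1 + algebraMap R F S.p ^ (S.n + 1) * (algebraMap R F a / algebraMap R F b) ≠ 0 →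
      σ.s (1 + algebraMap R F S.p ^ (S.n + 1) * (algebraMap R F a / algebraMap R F b)) f ∈
        U S σ (S.T y)

/-- LE1: Lemma 1 -/
def T_LE1 : Prop :=
  ∀ (R F M : Type u) [CommRing R] [IsDomain R] [IsNoetherianRing R] [IsIntegrallyClosed R]
    [Field F] [Algebra R F] [IsFractionRing R F] [AddCommGroup M]
    (S : Sit R) (σ : Symb F M) (q : ℕ), (∀ m : M, q • m = 0) → Root F S q →
    ∀ (y : S.Y) (a b g : R), b ≠ 0 → (∀ e ∈ S.Sig, b ∉ e) → g ≠ 0 →
      (∀ P ∈ S.Hor, Below (S.T y) P → g ∉ P) →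
      (∀ e ∈ S.Sig, InL {e} (algebraMap R F S.p / algebraMap R F g)) →
      1 + algebraMap R F S.p ^ (S.n + 1) * (algebraMap R F a / algebraMap R F b) ≠ 0 →
      Lift S σ y (σ.s (1 + algebraMap R F S.p ^ (S.n + 1) *
        (algebraMap R F a / algebraMap R F b)) (algebraMap R F g))

/-- LE2: Lemma 2 -/
def T_LE2 : Prop :=
  ∀ (R F M : Type u) [CommRing R] [IsDomain R] [IsNoetherianRing R] [IsIntegrallyClosed R]
    [Field F] [Algebra R F] [IsFractionRing R F] [AddCommGroup M]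
    (S : Sit R) (σ : Symb F M)
    (y : S.Y) (b g : R), b ≠ 0 → (∀ e ∈ S.Sig, Below (S.T y) e → b ∉ e) → g ≠ 0 →
      (∀ P ∈ S.Hor, Below (S.T y) P → b ∈ P → g ∉ P) →
      ∃ N0 : ℕ, ∀ N, N0 ≤ N → ∀ e : F, InL (S.T y) e →
        1 + algebraMap R F S.p ^ N * (e / algebraMap R F b) ≠ 0 →
        Lift S σ y (σ.s (1 + algebraMap R F S.p ^ N * (e / algebraMap R F b))
          (algebraMap R F g))

/-- COP: the coprime case -/
def T_COP : Prop :=
  ∀ (R F M : Type u) [CommRing R] [IsDomain R] [IsNoetherianRing R] [IsIntegrallyClosed R]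
    [Field F] [Algebra R F] [IsFractionRing R F] [AddCommGroup M]
    (S : Sit R) (σ : Symb F M) (q : ℕ), (∀ m : M, q • m = 0) → Root F S q →
    ∀ (y : S.Y) (a b g : R), b ≠ 0 → (∀ e ∈ S.Sig, b ∉ e) → g ≠ 0 →
      (∀ P ∈ S.Hor, g ∈ P → b ∉ P ∧ b + S.p ^ (S.n + 1) * a ∉ P) →
      (∀ e ∈ S.Sig, InL {e} (algebraMap R F S.p / algebraMap R F g)) →
      b + S.p ^ (S.n + 1) * a ≠ 0 →
      Lift S σ y (σ.s (1 + algebraMap R F S.p ^ (S.n + 1) *
        (algebraMap R F a / algebraMap R F b)) (algebraMap R F g))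

/-- DEC: decomposition into coprime pairs -/
def T_DEC : Prop :=
  ∀ (R F M : Type u) [CommRing R] [IsDomain R] [IsNoetherianRing R] [IsIntegrallyClosed R]
    [Field F] [Algebra R F] [IsFractionRing R F] [AddCommGroup M]
    (S : Sit R) (σ : Symb F M) (L : AddSubgroup M),
    (∀ u g : F, u ≠ 0 → g ≠ 0 → InL S.Sig ((u - 1) / algebraMap R F S.p ^ (S.n + 1)) →
      (∀ P ∈ S.Hor, UnA P u ∨ UnA P g) → σ.s u g ∈ L) →
    ∀ u g : F, u ≠ 0 → g ≠ 0 → InL S.Sig ((u - 1) / algebraMap R F S.p ^ (S.n + 1)) →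
      σ.s u g ∈ L

/-- GEN: coprime pairs reduce to COP -/
def T_GEN : Prop :=
  ∀ (R F M : Type u) [CommRing R] [IsDomain R] [IsNoetherianRing R] [IsIntegrallyClosed R]
    [Field F] [Algebra R F] [IsFractionRing R F] [AddCommGroup M]
    (S : Sit R) (σ : Symb F M) (L : AddSubgroup M),
    (∀ a b g : R, b ≠ 0 → (∀ e ∈ S.Sig, b ∉ e) → g ≠ 0 →
      (∀ P ∈ S.Hor, g ∈ P → b ∉ P ∧ b + S.p ^ (S.n + 1) * a ∉ P) →
      (∀ e ∈ S.Sig, InL {e} (algebraMap R F S.p / algebraMap R F g)) →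
      b + S.p ^ (S.n + 1) * a ≠ 0 →
      σ.s (1 + algebraMap R F S.p ^ (S.n + 1) *
        (algebraMap R F a / algebraMap R F b)) (algebraMap R F g) ∈ L) →
    ∀ u g : F, u ≠ 0 → g ≠ 0 → InL S.Sig ((u - 1) / algebraMap R F S.p ^ (S.n + 1)) →
      (∀ P ∈ S.Hor, UnA P u ∨ UnA P g) → σ.s u g ∈ L

end Pool.Agent.H92.KST
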